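import Mathlib

set_option autoImplicit false

namespace Pool.Agent.Helper68

section Comb

variable {X : Type} (E φ : Equiv.Perm X)

/-- The translated twists. -/
def tw (i : ℤ) : Equiv.Perm X := E ^ i * φ⁻¹ * E ^ (-i)

/-- The product of the first `n` translated twists. -/
def tS : ℕ → Equiv.Perm X
  | 0 => 1
  | n + 1 => tS n * tw E φ (n + 1)

variable {E φ}

lemma zpow_neg_apply' (i : ℤ) (y : X) : (E ^ i) ((E ^ (-i)) y) = y := by
  rw [← Equiv.Perm.mul_apply, ← zpow_add, add_neg_cancel, zpow_zero]; rfl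

lemma tw_fix {W : Set X} (hφ : ∀ x, x ∉ W → φ x = x) {i : ℤ} {y : X} (h : (E ^ (-i)) y ∉ W) :
    tw E φ i y = y := by
  unfold tw
  rw [Equiv.Perm.mul_apply, Equiv.Perm.mul_apply]
  have h1 : φ⁻¹ ((E ^ (-i)) y) = (E ^ (-i)) y := by
    rw [Equiv.Perm.inv_eq_iff_eq]
    exact (hφ _ h).symm
  rw [h1, zpow_neg_apply']

lemma phi_mem {W : Set X} (hφ : ∀ x, x ∉ W → φ x = x) {x : X} (hx : x ∈ W) : φ x ∈ W := by
  by_contra h
  have h1 := φ.injective (hφ _ h)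
  rw [h1] at h
  exact h hx

lemma tw_commute {W : Set X} {N : ℕ} (hφ : ∀ x, x ∉ W → φ x = x)
    (hsep : ∀ x ∈ W, ∀ l : ℤ, l ≠ 0 → |l| ≤ 2 * N → (E ^ l) x ∉ W) {i j : ℤ} (hij : i ≠ j)
    (hb : |i - j| ≤ 2 * N) : Commute (tw E φ i) (tw E φ j) := by
  apply Equiv.Perm.Disjoint.commute
  intro y
  by_cases h : (E ^ (-i)) y ∈ W
  · right
    apply tw_fix hφ
    have h1 := hsep _ h (i - j) (sub_ne_zero.mpr hij) hb
    rwa [← Equiv.Perm.mul_apply, ← zpow_add, show i - j + -i = -j by ring] at h1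
  · left
    exact tw_fix hφ h

lemma tS_commute {W : Set X} {N : ℕ} (hφ : ∀ x, x ∉ W → φ x = x)
    (hsep : ∀ x ∈ W, ∀ l : ℤ, l ≠ 0 → |l| ≤ 2 * N → (E ^ l) x ∉ W) {n : ℕ} (hn : n ≤ N) :
    Commute (tw E φ 1) (tS E φ n) := by
  induction n with
  | zero => exact Commute.one_right _
  | succ n ih =>
    refine (ih (by omega)).mul_right ?_
    rcases Nat.eq_zero_or_pos n with h | h
    · subst h
      simp
    · apply tw_commute hφ hsep
      · omega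
      · rw [abs_le]
        omega

lemma tS_shift (n : ℕ) : tw E φ 1 * (E * tS E φ n * E⁻¹) = tS E φ (n + 1) := by
  induction n with
  | zero => simp [tS]
  | succ n ih =>
    have h1 : E * tw E φ (n + 1) * E⁻¹ = tw E φ (((n + 1 : ℕ) : ℤ) + 1) := by
      unfold tw
      have e1 : E ^ (((n + 1 : ℕ) : ℤ) + 1) = E * E ^ ((n : ℤ) + 1) := by
        rw [add_comm, zpow_add, zpow_one]
        push_cast
        rfl
      have e2 : E ^ (-(((n + 1 : ℕ) : ℤ) + 1)) = E ^ (-((n : ℤ) + 1)) * E⁻¹ := by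
        rw [neg_add, zpow_add, zpow_neg_one]
        push_cast
        rfl
      rw [e1, e2]
      group
    calc tw E φ 1 * (E * tS E φ (n + 1) * E⁻¹)
        = (tw E φ 1 * (E * tS E φ n * E⁻¹)) * (E * tw E φ (n + 1) * E⁻¹) := by
          simp only [tS]; group
      _ = tS E φ (n + 1 + 1) := by
          rw [ih, h1]; rfl

/-- The conjugated translation, computed. -/
lemma conj_formula {T : Equiv.Perm X} {W : Set X} {N : ℕ} (hφ : ∀ x, x ∉ W → φ x = x)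
    (hsep : ∀ x ∈ W, ∀ l : ℤ, l ≠ 0 → |l| ≤ 2 * N → (E ^ l) x ∉ W)
    (hTφ : T * φ = φ * T) :
    (tS E φ N)⁻¹ * E * tS E φ N =
      E * φ * (E ^ N * T⁻¹) * φ⁻¹ * (E ^ N * T⁻¹)⁻¹ := by
  have h1 := tS_shift (E := E) (φ := φ) N
  have h2 := tS_commute hφ hsep (le_refl N)
  set S := tS E φ N with hS
  have h3 : tS E φ (N + 1) = S * tw E φ (N + 1) := rfl
  rw [h3] at h1
  have h4 : E * S = (tw E φ 1)⁻¹ * (S * tw E φ (N + 1)) * E := by
    rw [← h1]; group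
  have h5 : S⁻¹ * (tw E φ 1)⁻¹ * S = (tw E φ 1)⁻¹ := by
    have : (tw E φ 1)⁻¹ * S = S * (tw E φ 1)⁻¹ := (h2.inv_left).eq
    rw [mul_assoc, this]; group
  have h6 : S⁻¹ * E * S = (tw E φ 1)⁻¹ * tw E φ (N + 1) * E := by
    calc S⁻¹ * E * S = S⁻¹ * (E * S) := by group
      _ = (S⁻¹ * (tw E φ 1)⁻¹ * S) * tw E φ (N + 1) * E := by rw [h4]; group
      _ = _ := by rw [h5]
  rw [h6]
  have h7 : (tw E φ 1)⁻¹ = E * φ * E⁻¹ := by
    unfold tw
    group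
  have h8 : tw E φ (N + 1) = E * E ^ N * φ⁻¹ * (E ^ N)⁻¹ * E⁻¹ := by
    unfold tw
    rw [add_comm, zpow_add, zpow_one, zpow_natCast]
    have : E ^ (-(1 + (N : ℤ))) = (E ^ N)⁻¹ * E⁻¹ := by
      rw [zpow_neg, zpow_add, zpow_one, zpow_natCast, mul_inv_rev]
    rw [this]
    group
  have h9 : T⁻¹ * φ⁻¹ * T = φ⁻¹ := by
    have : φ⁻¹ * T = T * φ⁻¹ := by
      calc φ⁻¹ * T = φ⁻¹ * (T * φ) * φ⁻¹ := by group
        _ = φ⁻¹ * (φ * T) * φ⁻¹ := by rw [hTφ]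
        _ = T * φ⁻¹ := by group
    rw [mul_assoc, this]; group
  rw [h7, h8]
  calc E * φ * E⁻¹ * (E * E ^ N * φ⁻¹ * (E ^ N)⁻¹ * E⁻¹) * E
      = E * φ * E ^ N * φ⁻¹ * (E ^ N)⁻¹ := by group
    _ = E * φ * E ^ N * (T⁻¹ * φ⁻¹ * T) * (E ^ N)⁻¹ := by rw [h9]
    _ = _ := by group

lemma tS_fix {W : Set X} (hφ : ∀ x, x ∉ W → φ x = x) {n : ℕ} {y : X}
    (h : ∀ i : ℕ, 1 ≤ i → i ≤ n → (E ^ (-(i : ℤ))) y ∉ W) : tS E φ n y = y := by
  induction n with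
  | zero => rfl
  | succ n ih =>
    simp only [tS]
    rw [Equiv.Perm.mul_apply]
    have h1 : tw E φ ((n : ℤ) + 1) y = y := by
      apply tw_fix hφ
      have := h (n + 1) (by omega) le_rfl
      push_cast at this
      exact this
    rw [h1]
    exact ih (fun i hi hi' => h i hi (by omega))

lemma tS_apply {W : Set X} {N : ℕ} (hφ : ∀ x, x ∉ W → φ x = x)
    (hsep : ∀ x ∈ W, ∀ l : ℤ, l ≠ 0 → |l| ≤ 2 * N → (E ^ l) x ∉ W) {w : X} (hw : w ∈ W)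
    {j n : ℕ} (hj : 1 ≤ j) (hjn : j ≤ n) (hn : n ≤ N) :
    tS E φ n ((E ^ j) (φ w)) = (E ^ j) w := by
  induction n, hjn using Nat.le_induction with
  | base =>
    obtain ⟨k, rfl⟩ : ∃ k, j = k + 1 := ⟨j - 1, by omega⟩
    simp only [tS]
    rw [Equiv.Perm.mul_apply]
    have h1 : tw E φ ((k : ℤ) + 1) ((E ^ (k + 1)) (φ w)) = (E ^ (k + 1)) w := by
      unfold tw
      have e1 : E ^ ((k : ℤ) + 1) = E ^ (k + 1) := by
        rw [← zpow_natCast E (k + 1)]; push_cast; rfl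
      have e2 : E ^ (-((k : ℤ) + 1)) = (E ^ (k + 1))⁻¹ := by
        rw [zpow_neg, e1]
      rw [e1, e2, Equiv.Perm.mul_apply, Equiv.Perm.mul_apply]
      have e3 : (E ^ (k + 1))⁻¹ ((E ^ (k + 1)) (φ w)) = φ w := Equiv.symm_apply_apply _ _
      have e4 : φ⁻¹ (φ w) = w := Equiv.symm_apply_apply _ _
      rw [e3, e4]
    rw [h1]
    apply tS_fix hφ
    intro i hi hi'
    have h2 := hsep w hw ((k : ℤ) + 1 - i) (by omega) (by rw [abs_le]; omega)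
    have e3 : (E ^ (-(i : ℤ))) ((E ^ (k + 1)) w) = (E ^ ((k : ℤ) + 1 - i)) w := by
      rw [← Equiv.Perm.mul_apply, ← zpow_natCast E (k + 1), ← zpow_add]
      congr 2
      push_cast
      ring
    rw [e3]
    exact h2
  | succ n hjn ih =>
    simp only [tS]
    rw [Equiv.Perm.mul_apply]
    have h1 : tw E φ ((n : ℤ) + 1) ((E ^ j) (φ w)) = (E ^ j) (φ w) := by
      apply tw_fix hφ
      have h2 := hsep (φ w) (phi_mem hφ hw) ((j : ℤ) - (n + 1)) (by omega) (by rw [abs_le]; omega)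
      have e3 : (E ^ (-((n : ℤ) + 1))) ((E ^ j) (φ w)) = (E ^ ((j : ℤ) - (n + 1))) (φ w) := by
        rw [← Equiv.Perm.mul_apply, ← zpow_natCast E j, ← zpow_add]
        congr 2
      rw [e3]
      exact h2
    rw [h1]
    exact ih (by omega)

/-- The conjugated small translation, on the relevant points. -/
lemma conj_small {T : Equiv.Perm X} {W : Set X} {N : ℕ} (hφ : ∀ x, x ∉ W → φ x = x)
    (hsep : ∀ x ∈ W, ∀ l : ℤ, l ≠ 0 → |l| ≤ 2 * N → (E ^ l) x ∉ W)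
    (hTE : T * E = E * T) (hTW : ∀ x ∈ W, T⁻¹ x ∈ W) {w : X} (hw : w ∈ W) {j : ℕ} (hj : 1 ≤ j)
    (hjN : j ≤ N) :
    ((tS E φ N)⁻¹ * (E ^ N * T⁻¹) * tS E φ N) ((E ^ j) (φ w)) = (E ^ j) ((E ^ N * T⁻¹) w) := by
  rw [Equiv.Perm.mul_apply, Equiv.Perm.mul_apply, tS_apply hφ hsep hw hj hjN le_rfl]
  have h1 : (E ^ N * T⁻¹) ((E ^ j) w) = (E ^ j) ((E ^ N * T⁻¹) w) := by
    rw [← Equiv.Perm.mul_apply, ← Equiv.Perm.mul_apply]
    congr 1
    have hc : Commute T E := hTE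
    have h2 : T⁻¹ * E ^ j = E ^ j * T⁻¹ := ((hc.inv_left).pow_right j).eq
    rw [mul_assoc, h2, ← mul_assoc, ← mul_assoc, ← pow_add, ← pow_add, add_comm]
  rw [h1, Equiv.Perm.inv_eq_iff_eq]
  symm
  apply tS_fix hφ
  intro i hi hi'
  have h2 := hsep (T⁻¹ w) (hTW w hw) ((j : ℤ) + N - i) (by omega) (by rw [abs_le]; omega)
  have e3 : (E ^ (-(i : ℤ))) ((E ^ j) ((E ^ N * T⁻¹) w)) = (E ^ ((j : ℤ) + N - i)) (T⁻¹ w) := by
    rw [Equiv.Perm.mul_apply, ← Equiv.Perm.mul_apply, ← Equiv.Perm.mul_apply,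
      ← zpow_natCast E j, ← zpow_natCast E N, ← zpow_add, ← zpow_add]
    congr 2
    ring
  rw [e3]
  exact h2

end Comb

end Pool.Agent.Helper68
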