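import Mathlib

set_option autoImplicit false

open Set Filter Topology
open scoped ContDiff

namespace Pool.Agent.Helper68

lemma p_apply_inv (e : Equiv.Perm ℝ) (x : ℝ) : e (e⁻¹ x) = x := e.apply_symm_apply x

lemma p_inv_apply (e : Equiv.Perm ℝ) (x : ℝ) : e⁻¹ (e x) = x := e.symm_apply_apply x

/-- The group of (lifts of) smooth orientation preserving circle diffeomorphisms. -/
def Dif : Subgroup (Equiv.Perm ℝ) where
  carrier := {e | ContDiff ℝ ∞ (e : ℝ → ℝ) ∧ ContDiff ℝ ∞ (e.symm : ℝ → ℝ) ∧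
    StrictMono (e : ℝ → ℝ) ∧ ∀ x, e (x + 1) = e x + 1}
  mul_mem' := by
    rintro a b ⟨ha1, ha2, ha3, ha4⟩ ⟨hb1, hb2, hb3, hb4⟩
    refine ⟨ha1.comp hb1, hb2.comp ha2, ha3.comp hb3, fun x => ?_⟩
    rw [Equiv.Perm.mul_apply, Equiv.Perm.mul_apply, hb4, ha4]
  one_mem' := ⟨contDiff_id, contDiff_id, strictMono_id, fun x => rfl⟩
  inv_mem' := by
    rintro a ⟨ha1, ha2, ha3, ha4⟩
    refine ⟨ha2, ha1, ?_, ?_⟩
    · intro x y hxy
      have h : a (a⁻¹ x) < a (a⁻¹ y) := by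
        rw [p_apply_inv, p_apply_inv]; exact hxy
      exact ha3.lt_iff_lt.mp h
    · intro x
      rw [Equiv.Perm.inv_eq_iff_eq, ha4, p_apply_inv]

lemma Dif.contDiff {e : Equiv.Perm ℝ} (he : e ∈ Dif) : ContDiff ℝ ∞ (e : ℝ → ℝ) := he.1

lemma Dif.strictMono {e : Equiv.Perm ℝ} (he : e ∈ Dif) : StrictMono (e : ℝ → ℝ) := he.2.2.1

lemma Dif.add_one {e : Equiv.Perm ℝ} (he : e ∈ Dif) (x : ℝ) : e (x + 1) = e x + 1 := he.2.2.2 x

lemma Dif.add_nat {e : Equiv.Perm ℝ} (he : e ∈ Dif) (x : ℝ) (n : ℕ) : e (x + n) = e x + n := by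
  induction n with
  | zero => simp
  | succ n ih =>
    push_cast
    rw [← add_assoc, Dif.add_one he, ih, add_assoc]

lemma Dif.add_int {e : Equiv.Perm ℝ} (he : e ∈ Dif) (x : ℝ) (n : ℤ) : e (x + n) = e x + n := by
  obtain ⟨m, rfl | rfl⟩ := n.eq_nat_or_neg
  · exact_mod_cast Dif.add_nat he x m
  · have := Dif.add_nat he (x + ((-(m : ℤ) : ℤ) : ℝ)) m
    push_cast at this ⊢
    rw [neg_add_cancel_right] at this
    linarith

/-- Translation by `v`. -/
def R (v : ℝ) : Equiv.Perm ℝ := Equiv.addRight v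

@[simp] lemma R_apply (v x : ℝ) : R v x = x + v := rfl

lemma R_mem (v : ℝ) : R v ∈ Dif := by
  refine ⟨?_, ?_, ?_, ?_⟩
  · show ContDiff ℝ ∞ (fun x : ℝ => x + v)
    fun_prop
  · show ContDiff ℝ ∞ (fun x : ℝ => x + -v)
    fun_prop
  · intro x y h
    simpa using h
  · intro x
    simp only [R_apply]
    ring

lemma R_mul (a b : ℝ) : R a * R b = R (a + b) := by
  ext x
  simp only [Equiv.Perm.mul_apply, R_apply]
  ring

lemma R_zero : R 0 = 1 := by
  ext x; simp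

lemma R_inv (a : ℝ) : (R a)⁻¹ = R (-a) := by
  rw [inv_eq_iff_mul_eq_one, R_mul, add_neg_cancel, R_zero]

lemma R_pow (a : ℝ) (n : ℕ) : R a ^ n = R (n * a) := by
  induction n with
  | zero => simp [R_zero]
  | succ n ih =>
    rw [pow_succ, ih, R_mul]
    congr 1
    push_cast
    ring

lemma R_zpow (a : ℝ) (n : ℤ) : R a ^ n = R (n * a) := by
  obtain ⟨m, rfl | rfl⟩ := n.eq_nat_or_neg
  · rw [zpow_natCast, R_pow]; simp
  · rw [zpow_neg, zpow_natCast, R_pow, R_inv]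
    congr 1
    push_cast
    ring

/-- Integer translations are central in `Dif`. -/
lemma R_int_comm {e : Equiv.Perm ℝ} (he : e ∈ Dif) (n : ℤ) : R n * e = e * R n := by
  ext x
  simp only [Equiv.Perm.mul_apply, R_apply]
  rw [Dif.add_int he]

lemma conjp_pow (a H : Equiv.Perm ℝ) (n : ℕ) : (H⁻¹ * a * H) ^ n = H⁻¹ * a ^ n * H := by
  have := conj_pow (a := H⁻¹) (b := a) (i := n)
  rw [inv_inv] at this
  exact this

lemma conjp_zpow (a H : Equiv.Perm ℝ) (n : ℤ) : (H⁻¹ * a * H) ^ n = H⁻¹ * a ^ n * H := by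
  have := conj_zpow (a := H⁻¹) (b := a) (i := n)
  rw [inv_inv] at this
  exact this

/-! ### Constructing elements of `Dif` -/

lemma surj_of_add_one {F : ℝ → ℝ} (hc : Continuous F) (h1 : ∀ x, F (x + 1) = F x + 1) :
    Function.Surjective F := by
  have hn : ∀ n : ℕ, F n = F 0 + n := by
    intro n
    induction n with
    | zero => simp
    | succ n ih => push_cast; rw [h1, ih]; ring
  have hm : ∀ n : ℕ, F (-n) = F 0 - n := by
    intro n
    induction n with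
    | zero => simp
    | succ n ih =>
      have := h1 (-((n : ℝ) + 1))
      rw [show -((n : ℝ) + 1) + 1 = -n by ring, ih] at this
      push_cast
      linarith
  intro y
  obtain ⟨n, hn1⟩ := exists_nat_gt |y - F 0|
  rw [abs_lt] at hn1
  have h2 : F (-n) ≤ y := by rw [hm]; linarith
  have h3 : y ≤ F n := by rw [hn]; linarith
  obtain ⟨x, -, hx⟩ := intermediate_value_Icc (show (-(n : ℝ)) ≤ n by
    linarith [(Nat.cast_nonneg n : (0 : ℝ) ≤ n)]) hc.continuousOn ⟨h2, h3⟩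
  exact ⟨x, hx⟩

lemma mkDif {F : ℝ → ℝ} (hF : ContDiff ℝ ∞ F) (hpos : ∀ x, 0 < deriv F x)
    (h1 : ∀ x, F (x + 1) = F x + 1) : ∃ e ∈ Dif, (e : ℝ → ℝ) = F := by
  have hmono : StrictMono F := strictMono_of_deriv_pos hpos
  have hsurj := surj_of_add_one hF.continuous h1
  let o := StrictMono.orderIsoOfSurjective F hmono hsurj
  let h := o.toHomeomorph
  have ho : ∀ x, h x = F x := fun x => rfl
  refine ⟨h.toEquiv, ⟨hF, ?_, hmono, h1⟩, rfl⟩
  rw [contDiff_iff_contDiffAt]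
  intro a
  have hmem : a ∈ h.toOpenPartialHomeomorph.target := by simp
  exact h.toOpenPartialHomeomorph.contDiffAt_symm_deriv (hpos (h.symm a)).ne' hmem
    ((hF.differentiable (by simp)).differentiableAt.hasDerivAt) hF.contDiffAt

lemma Dif.deriv_pos {e : Equiv.Perm ℝ} (he : e ∈ Dif) (x : ℝ) : 0 < deriv e x := by
  have h1 : HasDerivAt e (deriv e x) x :=
    ((Dif.contDiff he).differentiable (by simp)).differentiableAt.hasDerivAt
  have h2 : HasDerivAt (e⁻¹ : Equiv.Perm ℝ) (deriv (e⁻¹ : Equiv.Perm ℝ) (e x)) (e x) :=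
    ((Dif.contDiff (Dif.inv_mem he)).differentiable (by simp)).differentiableAt.hasDerivAt
  have h3 := h2.comp x h1
  have h4 : ((e⁻¹ : Equiv.Perm ℝ) : ℝ → ℝ) ∘ (e : ℝ → ℝ) = id := by
    funext y
    simp
  rw [h4] at h3
  have h5 := h3.unique (hasDerivAt_id x)
  have h6 : 0 ≤ deriv e x := (Dif.strictMono he).monotone.deriv_nonneg
  rcases h6.lt_or_eq with h | h
  · exact h
  · rw [← h, mul_zero] at h5
    exact absurd h5 zero_ne_one

lemma Dif.hasDerivAt {e : Equiv.Perm ℝ} (he : e ∈ Dif) (x : ℝ) : HasDerivAt e (deriv e x) x :=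
  ((Dif.contDiff he).differentiable (by simp)).differentiableAt.hasDerivAt

/-! ### Closeness of families -/

variable {E : Type} [NormedAddCommGroup E] [NormedSpace ℝ E]

lemma contDiffAt_partial {Φ : E × ℝ → ℝ} {z₀ : E × ℝ} (h : ContDiffAt ℝ ∞ Φ z₀) :
    ContDiffAt ℝ ∞ (fun z : E × ℝ => deriv (fun x => Φ (z.1, x)) z.2) z₀ := by
  have h1 : ContDiffAt ℝ ∞ (fun z => fderiv ℝ Φ z (0, 1)) z₀ := by
    have h2 : ContDiffAt ℝ ∞ (fderiv ℝ Φ) z₀ := h.fderiv_right (by simp)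
    exact h2.clm_apply contDiffAt_const
  refine h1.congr_of_eventuallyEq ?_
  have h3 : ∀ᶠ z in 𝓝 z₀, ContDiffAt ℝ 1 Φ z := by
    have h4 : ContDiffAt ℝ 1 Φ z₀ := h.of_le (by simp)
    exact h4.eventually (by simp)
  filter_upwards [h3] with z hz
  have h5 : HasFDerivAt Φ (fderiv ℝ Φ z) z := (hz.differentiableAt (by simp)).hasFDerivAt
  have h6 : HasDerivAt (fun x : ℝ => (z.1, x)) ((0 : E), (1 : ℝ)) z.2 :=
    (hasDerivAt_const z.2 z.1).prodMk (hasDerivAt_id z.2)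
  have h7 : HasFDerivAt Φ (fderiv ℝ Φ z) ((fun x : ℝ => (z.1, x)) z.2) := h5
  exact (h7.comp_hasDerivAt z.2 h6).deriv

lemma contDiffAt_iterated_partial {Φ : E × ℝ → ℝ} {z₀ : E × ℝ} (h : ContDiffAt ℝ ∞ Φ z₀) (j : ℕ) :
    ContDiffAt ℝ ∞ (fun z : E × ℝ => iteratedDeriv j (fun x => Φ (z.1, x)) z.2) z₀ := by
  induction j with
  | zero => simpa [iteratedDeriv_zero] using h
  | succ j ih =>
    have := contDiffAt_partial ih
    simpa [iteratedDeriv_succ] using this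

/-- **Closeness lemma.** -/
lemma close_family {Φ : E × ℝ → ℝ} {a₀ : E} (h : ∀ x, ContDiffAt ℝ ∞ Φ (a₀, x))
    (hper : ∀ᶠ a in 𝓝 a₀, ∀ x, Φ (a, x + 1) = Φ (a, x) + 1) (k : ℕ) {η : ℝ} (hη : 0 < η) :
    ∀ᶠ a in 𝓝 a₀, ∀ j ≤ k, ∀ x,
      |iteratedDeriv j (fun x => Φ (a, x)) x - iteratedDeriv j (fun x => Φ (a₀, x)) x| ≤ η := by
  have hone : ∀ j : ℕ, ∀ᶠ a in 𝓝 a₀, ∀ x ∈ Set.Icc (0 : ℝ) 1,
      |iteratedDeriv j (fun x => Φ (a, x)) x - iteratedDeriv j (fun x => Φ (a₀, x)) x| ≤ η := by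
    intro j
    apply isCompact_Icc.eventually_forall_of_forall_eventually
    intro x₀ _
    have h1 := (contDiffAt_iterated_partial (h x₀) j).continuousAt
    have h2 : ContinuousAt (fun z : E × ℝ => iteratedDeriv j (fun x => Φ (a₀, x)) z.2) (a₀, x₀) := by
      have h3 : ContinuousAt (fun z : E × ℝ => (a₀, z.2)) (a₀, x₀) := by fun_prop
      exact ContinuousAt.comp (f := fun z : E × ℝ => (a₀, z.2))
        (g := fun z : E × ℝ => iteratedDeriv j (fun x => Φ (z.1, x)) z.2) h1 h3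
    have h4 := (h1.sub h2).abs
    have h5 : Tendsto (fun z : E × ℝ => |iteratedDeriv j (fun x => Φ (z.1, x)) z.2 -
        iteratedDeriv j (fun x => Φ (a₀, x)) z.2|) (𝓝 (a₀, x₀)) (𝓝 0) := by
      have h6 := h4.tendsto
      simpa using h6
    exact (h5.eventually (gt_mem_nhds hη)).mono fun z hz => hz.le
  have hall : ∀ᶠ a in 𝓝 a₀, ∀ j ∈ Finset.range (k + 1), ∀ x ∈ Set.Icc (0 : ℝ) 1,
      |iteratedDeriv j (fun x => Φ (a, x)) x - iteratedDeriv j (fun x => Φ (a₀, x)) x| ≤ η := by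
    rw [Finset.eventually_all]
    exact fun j _ => hone j
  filter_upwards [hall, hper] with a ha hpa j hj x
  -- periodicity
  have hperj : ∀ b : E, (∀ x, Φ (b, x + 1) = Φ (b, x) + 1) → ∀ x,
      iteratedDeriv j (fun x => Φ (b, x)) (x + 1) =
      iteratedDeriv j (fun x => Φ (b, x)) x + if j = 0 then 1 else 0 := by
    intro b hper x
    have h1 : iteratedDeriv j (fun x => Φ (b, x)) (x + 1) =
        iteratedDeriv j (fun x => Φ (b, x + 1)) x := by
      have := iteratedDeriv_comp_add_const j (fun x => Φ (b, x)) 1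
      rw [this]
    rw [h1]
    have h2 : (fun x => Φ (b, x + 1)) = fun x => Φ (b, x) + 1 := by
      funext y; exact hper y
    rw [h2]
    rcases j with _ | j
    · simp
    · rw [iteratedDeriv_succ', iteratedDeriv_succ']
      simp
  have hdiff : ∀ x, iteratedDeriv j (fun x => Φ (a, x)) (x + 1) -
      iteratedDeriv j (fun x => Φ (a₀, x)) (x + 1) = iteratedDeriv j (fun x => Φ (a, x)) x -
      iteratedDeriv j (fun x => Φ (a₀, x)) x := by
    intro x
    rw [hperj a hpa, hperj a₀ hper.self_of_nhds]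
    ring
  have hP : Function.Periodic (fun x => iteratedDeriv j (fun x => Φ (a, x)) x -
      iteratedDeriv j (fun x => Φ (a₀, x)) x) 1 := hdiff
  have hfr := hP.sub_zsmul_eq (x := x) ⌊x⌋
  have hx : x - ⌊x⌋ • (1 : ℝ) = Int.fract x := by
    rw [zsmul_one]; rfl
  rw [hx] at hfr
  rw [← hfr]
  exact ha j (Finset.mem_range.mpr (by omega)) (Int.fract x)
    ⟨Int.fract_nonneg x, (Int.fract_lt_one x).le⟩

end Pool.Agent.Helper68
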