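import Pool.Agent.Helper68.Step

set_option autoImplicit false

open Set Filter Topology Real
open scoped ContDiff

namespace Pool.Agent.Helper68

/-- The reduced derivative of the conjugated translation. -/
noncomputable def Kd (m v w : ℝ) : ℝ :=
  1 / ((m ^ 2 * cos (π * (Dm m w + v)) ^ 2 + sin (π * (Dm m w + v)) ^ 2) *
        (cos (π * w) ^ 2 + m ^ 2 * sin (π * w) ^ 2))

lemma cv_hasDerivAt {m : ℝ} (hm : 0 < m) (v w : ℝ) :
    HasDerivAt (cv m v) (m ^ 2 * Kd m v w) w := conj_hasDerivAt hm v w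

lemma cos_pos_of {w : ℝ} (hw : |w| < 1 / 2) : 0 < cos (π * w) := by
  apply cos_pos_of_mem_Ioo
  rw [abs_lt] at hw
  constructor <;> nlinarith [pi_pos]

lemma Kd_tendsto {ι : Type} {l : Filter ι} {m v : ι → ℝ} {w : ℝ} (hw : |w| < 1 / 2)
    (hm : Tendsto m l (𝓝 0)) (hv : Tendsto v l (𝓝 (1 / 2))) :
    Tendsto (fun i => Kd (m i) (v i) w) l (𝓝 (1 / cos (π * w) ^ 2)) := by
  have hc := cos_pos_of hw
  have hz : Tendsto (fun i => π * (Dm (m i) w + v i)) l (𝓝 (π * (0 + 1 / 2))) :=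
    (((Dm_tendsto_zero hw).comp hm).add hv).const_mul π
  have hcos : Tendsto (fun i => cos (π * (Dm (m i) w + v i))) l (𝓝 0) := by
    have := (continuous_cos.tendsto _).comp hz
    rw [show π * (0 + 1 / 2) = π / 2 by ring, cos_pi_div_two] at this
    exact this
  have hsin : Tendsto (fun i => sin (π * (Dm (m i) w + v i))) l (𝓝 1) := by
    have := (continuous_sin.tendsto _).comp hz
    rw [show π * (0 + 1 / 2) = π / 2 by ring, sin_pi_div_two] at this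
    exact this
  have h1 : Tendsto (fun i => (m i ^ 2 * cos (π * (Dm (m i) w + v i)) ^ 2 +
      sin (π * (Dm (m i) w + v i)) ^ 2) * (cos (π * w) ^ 2 + m i ^ 2 * sin (π * w) ^ 2)) l
      (𝓝 ((0 ^ 2 * 0 ^ 2 + 1 ^ 2) * (cos (π * w) ^ 2 + 0 ^ 2 * sin (π * w) ^ 2))) :=
    (((hm.pow 2).mul (hcos.pow 2)).add (hsin.pow 2)).mul
      (tendsto_const_nhds.add ((hm.pow 2).mul_const _))
  have e : ((0 : ℝ) ^ 2 * 0 ^ 2 + 1 ^ 2) * (cos (π * w) ^ 2 + 0 ^ 2 * sin (π * w) ^ 2)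
      = cos (π * w) ^ 2 := by ring
  rw [e] at h1
  have h2 := (tendsto_const_nhds (x := (1 : ℝ))).div h1 (by positivity)
  exact h2

lemma cv_tendsto {ι : Type} {l : Filter ι} {m v : ι → ℝ} {w : ℝ} (hw : |w| < 1 / 2)
    (hm : Tendsto m l (𝓝 0)) (hpos : ∀ᶠ i in l, 0 < m i) (hv : Tendsto v l (𝓝 (1 / 2))) :
    Tendsto (fun i => cv (m i) (v i) w) l (𝓝 (1 / 2)) := by
  apply Dm_tendsto_half hm hpos
  have := ((Dm_tendsto_zero hw).comp hm).add hv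
  rw [zero_add] at this
  exact this

/-- The time parameter of the intermediate iterate. -/
noncomputable def jt (N : ℕ) : ℝ := ((N / 2 : ℕ) : ℝ) * th N

/-- The two orbits. -/
noncomputable def Ah (H φ : Equiv.Perm ℝ) (q : ℕ) (t : ℝ) (N : ℕ) (w : ℝ) : ℝ :=
  H⁻¹ (cv (mm t N) (jt N) (φ w) / q)

noncomputable def Bh (H : Equiv.Perm ℝ) (q : ℕ) (t : ℝ) (N : ℕ) (w : ℝ) : ℝ :=
  H⁻¹ (cv (mm t N) (jt N - ka N) w / q)

/-- derivatives -/
noncomputable def Ad (H φ : Equiv.Perm ℝ) (q : ℕ) (t : ℝ) (N : ℕ) (w : ℝ) : ℝ :=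
  deriv (H⁻¹ : Equiv.Perm ℝ) (cv (mm t N) (jt N) (φ w) / q) *
    (mm t N ^ 2 * Kd (mm t N) (jt N) (φ w) * deriv φ w / q)

noncomputable def Bd (H : Equiv.Perm ℝ) (q : ℕ) (t : ℝ) (N : ℕ) (w : ℝ) : ℝ :=
  deriv (H⁻¹ : Equiv.Perm ℝ) (cv (mm t N) (jt N - ka N) w / q) *
    (mm t N ^ 2 * Kd (mm t N) (jt N - ka N) w / q)

lemma Ah_hasDerivAt {H φ : Equiv.Perm ℝ} (hH : H ∈ Dif) (hφ : φ ∈ Dif) (q : ℕ) {t : ℝ} (ht : 0 < t)
    {N : ℕ} (hN : 1 ≤ N) (w : ℝ) : HasDerivAt (Ah H φ q t N) (Ad H φ q t N w) w := by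
  have h1 := (cv_hasDerivAt (mm_pos ht hN) (jt N) (φ w)).comp w (Dif.hasDerivAt hφ w)
  have h2 := h1.div_const (q : ℝ)
  have h3 := Dif.hasDerivAt (Dif.inv_mem hH) (cv (mm t N) (jt N) (φ w) / q)
  exact HasDerivAt.comp w (h₂ := (H⁻¹ : Equiv.Perm ℝ))
    (h := fun w => cv (mm t N) (jt N) (φ w) / q) h3 h2

lemma Bh_hasDerivAt {H : Equiv.Perm ℝ} (hH : H ∈ Dif) (q : ℕ) {t : ℝ} (ht : 0 < t)
    {N : ℕ} (hN : 1 ≤ N) (w : ℝ) : HasDerivAt (Bh H q t N) (Bd H q t N w) w := by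
  have h1 := cv_hasDerivAt (mm_pos ht hN) (jt N - ka N) w
  have h2 := h1.div_const (q : ℝ)
  have h3 := Dif.hasDerivAt (Dif.inv_mem hH) (cv (mm t N) (jt N - ka N) w / q)
  exact HasDerivAt.comp w (h₂ := (H⁻¹ : Equiv.Perm ℝ))
    (h := fun w => cv (mm t N) (jt N - ka N) w / q) h3 h2

lemma jt_tendsto : Tendsto jt atTop (𝓝 (1 / 2)) := half_tendsto

lemma jt_sub_tendsto : Tendsto (fun N => jt N - ka N) atTop (𝓝 (1 / 2)) := by
  have := jt_tendsto.sub ka_tendsto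
  rwa [sub_zero] at this

lemma mm_ev_pos {t : ℝ} (ht : 0 < t) : ∀ᶠ N in atTop, 0 < mm t N := by
  filter_upwards [eventually_ge_atTop 1] with N hN
  exact mm_pos ht hN

lemma Ah_tendsto {H φ : Equiv.Perm ℝ} (hH : H ∈ Dif) (q : ℕ) {t : ℝ} (ht : 0 < t) {w : ℝ}
    (hw : |φ w| < 1 / 2) :
    Tendsto (fun N => Ah H φ q t N w) atTop (𝓝 ((H⁻¹ : Equiv.Perm ℝ) (1 / 2 / q))) := by
  have h1 := (cv_tendsto hw (mm_tendsto t) (mm_ev_pos ht) jt_tendsto).div_const (q : ℝ)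
  exact ((Dif.contDiff (Dif.inv_mem hH)).continuous.tendsto _).comp h1

lemma ratio_tendsto {H φ : Equiv.Perm ℝ} (hH : H ∈ Dif) (hφ : φ ∈ Dif) {q : ℕ} (hq : 0 < q)
    {t : ℝ} (ht : 0 < t) {w : ℝ} (hw : |w| < 1 / 2) (hφw : |φ w| < 1 / 2) :
    Tendsto (fun N => Bd H q t N w / Ad H φ q t N w) atTop
      (𝓝 (cos (π * φ w) ^ 2 / (cos (π * w) ^ 2 * deriv φ w))) := by
  have hq' : (0 : ℝ) < q := Nat.cast_pos.mpr hq
  have hHc : Continuous (deriv (H⁻¹ : Equiv.Perm ℝ)) :=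
    (Dif.contDiff (Dif.inv_mem hH)).continuous_deriv (by simp)
  have hA1 := (cv_tendsto hφw (mm_tendsto t) (mm_ev_pos ht) jt_tendsto).div_const (q : ℝ)
  have hB1 := (cv_tendsto hw (mm_tendsto t) (mm_ev_pos ht) jt_sub_tendsto).div_const (q : ℝ)
  have hA2 := (hHc.tendsto _).comp hA1
  have hB2 := (hHc.tendsto _).comp hB1
  have hA3 := Kd_tendsto hφw (mm_tendsto t) jt_tendsto
  have hB3 := Kd_tendsto hw (mm_tendsto t) jt_sub_tendsto
  have hd := Dif.deriv_pos hφ w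
  have hh := Dif.deriv_pos (Dif.inv_mem hH) (1 / 2 / q)
  have hc1 := cos_pos_of hw
  have hc2 := cos_pos_of hφw
  have hlim := (hB2.mul hB3).div (hA2.mul (hA3.mul_const (deriv φ w))) (by positivity)
  have e : deriv (H⁻¹ : Equiv.Perm ℝ) (1 / 2 / q) * (1 / cos (π * w) ^ 2) /
      (deriv (H⁻¹ : Equiv.Perm ℝ) (1 / 2 / q) * (1 / cos (π * φ w) ^ 2 * deriv φ w)) =
      cos (π * φ w) ^ 2 / (cos (π * w) ^ 2 * deriv φ w) := by
    clear hlim hA2 hB2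
    generalize deriv (H⁻¹ : Equiv.Perm ℝ) (1 / 2 / q) = h at hh
    generalize deriv φ w = d at hd
    generalize cos (π * w) = c at hc1
    generalize cos (π * φ w) = c' at hc2
    field_simp
  rw [e] at hlim
  refine hlim.congr' ?_
  filter_upwards [mm_ev_pos ht] with N hN
  simp only [Bd, Ad, Pi.div_apply, Function.comp]
  generalize deriv (H⁻¹ : Equiv.Perm ℝ) (cv (mm t N) (jt N - ka N) w / q) = X
  generalize deriv (H⁻¹ : Equiv.Perm ℝ) (cv (mm t N) (jt N) (φ w) / q) = Y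
  generalize Kd (mm t N) (jt N - ka N) w = K₁
  generalize Kd (mm t N) (jt N) (φ w) = K₂
  have e1 : X * (mm t N ^ 2 * K₁ / q) = (mm t N ^ 2 / q) * (X * K₁) := by ring
  have e2 : Y * (mm t N ^ 2 * K₂ * deriv φ w / q) = (mm t N ^ 2 / q) * (Y * (K₂ * deriv φ w)) := by
    ring
  rw [e1, e2, mul_div_mul_left _ _ (by positivity)]

lemma Kd_pos {m : ℝ} (hm : 0 < m) (v w : ℝ) : 0 < Kd m v w := by
  unfold Kd
  have h1 := Dm_denom hm w
  have h2 : 0 < m ^ 2 * cos (π * (Dm m w + v)) ^ 2 + sin (π * (Dm m w + v)) ^ 2 := by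
    have h3 := Dm_denom (inv_pos.mpr hm) (Dm m w + v)
    have : m ^ 2 * cos (π * (Dm m w + v)) ^ 2 + sin (π * (Dm m w + v)) ^ 2 =
      m ^ 2 * (cos (π * (Dm m w + v)) ^ 2 + m⁻¹ ^ 2 * sin (π * (Dm m w + v)) ^ 2) := by
      field_simp
    rw [this]
    positivity
  positivity

lemma Ad_pos {H φ : Equiv.Perm ℝ} (hH : H ∈ Dif) (hφ : φ ∈ Dif) {q : ℕ} (hq : 0 < q)
    {t : ℝ} (ht : 0 < t) {N : ℕ} (hN : 1 ≤ N) (w : ℝ) : 0 < Ad H φ q t N w := by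
  have hq' : (0 : ℝ) < q := Nat.cast_pos.mpr hq
  unfold Ad
  have h1 := Dif.deriv_pos (Dif.inv_mem hH) (cv (mm t N) (jt N) (φ w) / q)
  have h2 := Kd_pos (mm_pos ht hN) (jt N) (φ w)
  have h3 := Dif.deriv_pos hφ w
  have h4 := mm_pos ht hN
  positivity

/-- The gap, eventually. -/
lemma gap_eventually {H φ : Equiv.Perm ℝ} (hH : H ∈ Dif) (hφ : φ ∈ Dif) {q : ℕ} (hq : 0 < q)
    {t : ℝ} (ht : 0 < t) (ht1 : t ≤ 1) {lam : ℝ} (hl : 0 < lam) (hl1 : lam < 1 / 8)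
    (h0 : φ (1 / 8) = 1 / 8 + lam) (h0' : deriv φ (1 / 8) = 1)
    (h1 : φ (1 / 8 + t / 32) = 1 / 8 + t / 32) (h1' : deriv φ (1 / 8 + t / 32) = 1)
    (B : ℝ) {a : ℝ} (ha : 0 < a) :
    ∀ᶠ N in atTop, |Ah H φ q t N (1 / 8 + t / 32) - Ah H φ q t N (1 / 8)| ≤ 1 ∧
      B * |Ah H φ q t N (1 / 8 + t / 32) - Ah H φ q t N (1 / 8)| ^ a <
      |Bd H q t N (1 / 8 + t / 32) / Ad H φ q t N (1 / 8 + t / 32) -
        Bd H q t N (1 / 8) / Ad H φ q t N (1 / 8)| := by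
  have w1 : |(1 / 8 : ℝ)| < 1 / 2 := by rw [abs_of_pos (by norm_num)]; norm_num
  have w2 : |1 / 8 + t / 32| < 1 / 2 := by rw [abs_of_pos (by positivity)]; linarith
  have w3 : |φ (1 / 8)| < 1 / 2 := by rw [h0, abs_of_pos (by positivity)]; linarith
  have w4 : |φ (1 / 8 + t / 32)| < 1 / 2 := by rw [h1]; exact w2
  have r1 := ratio_tendsto hH hφ hq ht w1 w3
  have r2 := ratio_tendsto hH hφ hq ht w2 w4
  have a1 := Ah_tendsto hH q ht w3
  have a2 := Ah_tendsto hH q ht w4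
  rw [h0, h0'] at r1
  rw [h1, h1'] at r2
  have hc := cos_pos_of w2
  have hc1 := cos_pos_of w1
  have e2 : cos (π * (1 / 8 + t / 32)) ^ 2 / (cos (π * (1 / 8 + t / 32)) ^ 2 * 1) = 1 := by
    rw [mul_one, div_self (by positivity)]
  rw [e2] at r2
  have hgap : cos (π * (1 / 8 + lam)) ^ 2 / (cos (π * (1 / 8)) ^ 2 * 1) < 1 := by
    rw [mul_one, div_lt_one (by positivity)]
    have hlt : cos (π * (1 / 8 + lam)) < cos (π * (1 / 8)) := by
      apply cos_lt_cos_of_nonneg_of_le_pi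
      · positivity
      · nlinarith [pi_pos]
      · nlinarith [pi_pos]
    have hpos : 0 < cos (π * (1 / 8 + lam)) := by rw [← h0]; exact cos_pos_of w3
    exact pow_lt_pow_left₀ hlt hpos.le (by norm_num)
  have d1 := (r2.sub r1).abs
  have d2 : Tendsto (fun N => |Ah H φ q t N (1 / 8 + t / 32) - Ah H φ q t N (1 / 8)|) atTop
      (𝓝 0) := by
    have := (a2.sub a1).abs
    rwa [sub_self, abs_zero] at this
  have d3 : Tendsto (fun N => B * |Ah H φ q t N (1 / 8 + t / 32) - Ah H φ q t N (1 / 8)| ^ a) atTop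
      (𝓝 (B * 0 ^ a)) := (d2.rpow_const (Or.inr ha.le)).const_mul B
  rw [zero_rpow ha.ne', mul_zero] at d3
  have d4 : (0 : ℝ) < |1 - cos (π * (1 / 8 + lam)) ^ 2 / (cos (π * (1 / 8)) ^ 2 * 1)| := by
    rw [abs_pos]
    linarith
  filter_upwards [d3.eventually_lt d1 d4, d2.eventually (gt_mem_nhds zero_lt_one)] with N e1 e2
  exact ⟨e2.le, e1⟩

end Pool.Agent.Helper68
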