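import Pool.Agent.Helper68.Twist

set_option autoImplicit false

open Set Filter Topology Real
open scoped ContDiff

namespace Pool.Agent.Helper68

/-- The homothety by `q`. -/
noncomputable def Mq (q : ℕ) (hq : 0 < q) : Equiv.Perm ℝ :=
  Equiv.mulLeft₀ (q : ℝ) (Nat.cast_ne_zero.mpr hq.ne')

lemma Mq_apply {q : ℕ} (hq : 0 < q) (x : ℝ) : Mq q hq x = q * x := rfl

lemma Mq_inv_apply {q : ℕ} (hq : 0 < q) (x : ℝ) : (Mq q hq)⁻¹ x = x / q := by
  rw [Equiv.Perm.inv_eq_iff_eq, Mq_apply]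
  have : (q : ℝ) ≠ 0 := Nat.cast_ne_zero.mpr hq.ne'
  field_simp

lemma scal_mem {F : Equiv.Perm ℝ} (hF : F ∈ Dif) {q : ℕ} (hq : 0 < q) :
    (Mq q hq)⁻¹ * F * Mq q hq ∈ Dif := by
  have hq' : (0 : ℝ) < q := Nat.cast_pos.mpr hq
  have key : ∀ G : Equiv.Perm ℝ, G ∈ Dif → ContDiff ℝ ∞ (((Mq q hq)⁻¹ * G * Mq q hq : Equiv.Perm ℝ) :
      ℝ → ℝ) := by
    intro G hG
    have : (((Mq q hq)⁻¹ * G * Mq q hq : Equiv.Perm ℝ) : ℝ → ℝ) = fun x => G (q * x) / q := by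
      funext x
      rw [Equiv.Perm.mul_apply, Equiv.Perm.mul_apply, Mq_apply, Mq_inv_apply]
    rw [this]
    exact ((Dif.contDiff hG).comp (contDiff_const.mul contDiff_id)).div_const _
  refine ⟨key F hF, ?_, ?_, ?_⟩
  · have h1 := key F⁻¹ (Dif.inv_mem hF)
    have h2 : ((Mq q hq)⁻¹ * F * Mq q hq)⁻¹ = (Mq q hq)⁻¹ * F⁻¹ * Mq q hq := by group
    rw [← h2] at h1
    exact h1
  · intro x y hxy
    rw [Equiv.Perm.mul_apply, Equiv.Perm.mul_apply, Mq_apply, Mq_inv_apply,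
      Equiv.Perm.mul_apply, Equiv.Perm.mul_apply, Mq_apply, Mq_inv_apply]
    have : F (q * x) < F (q * y) := Dif.strictMono hF (by gcongr)
    gcongr
  · intro x
    rw [Equiv.Perm.mul_apply, Equiv.Perm.mul_apply, Mq_apply, Mq_inv_apply,
      Equiv.Perm.mul_apply, Equiv.Perm.mul_apply, Mq_apply, Mq_inv_apply, mul_add, mul_one,
      Dif.add_nat hF]
    field_simp

lemma Mq_R {q : ℕ} (hq : 0 < q) (v : ℝ) : (Mq q hq)⁻¹ * R v * Mq q hq = R (v / q) := by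
  have hq' : (0 : ℝ) < q := Nat.cast_pos.mpr hq
  ext x
  rw [Equiv.Perm.mul_apply, Equiv.Perm.mul_apply, Mq_apply, Mq_inv_apply, R_apply, R_apply]
  field_simp

/-- Closeness for wrapped families. -/
lemma close_wrap {E : Type} [NormedAddCommGroup E] [NormedSpace ℝ E] {U : E × ℝ → ℝ} {a₀ : E}
    (hU : ∀ y, ContDiffAt ℝ ∞ U (a₀, y))
    (hper : ∀ᶠ a in 𝓝 a₀, ∀ y, U (a, y + 1) = U (a, y) + 1) {H : Equiv.Perm ℝ} (hH : H ∈ Dif)
    (b : ℝ) {q : ℕ} (hq : 0 < q) (k : ℕ) {η : ℝ} (hη : 0 < η) :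
    ∀ᶠ a in 𝓝 a₀, ∀ j ≤ k, ∀ x,
      |iteratedDeriv j (fun x => H⁻¹ (U (a, q * H x) / q + b)) x -
        iteratedDeriv j (fun x => H⁻¹ (U (a₀, q * H x) / q + b)) x| ≤ η := by
  have hq' : (0 : ℝ) < q := Nat.cast_pos.mpr hq
  have hHi : ContDiff ℝ ∞ (H⁻¹ : Equiv.Perm ℝ) := Dif.contDiff (Dif.inv_mem hH)
  have hH' : ContDiff ℝ ∞ H := Dif.contDiff hH
  apply close_family (Φ := fun z : E × ℝ => H⁻¹ (U (z.1, q * H z.2) / q + b)) ?_ ?_ k hη
  · intro x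
    have h1 : ContDiffAt ℝ ∞ (fun z : E × ℝ => (z.1, (q : ℝ) * H z.2)) (a₀, x) := by
      apply contDiffAt_fst.prodMk
      exact contDiffAt_const.mul (hH'.contDiffAt.comp _ contDiffAt_snd)
    have h2 : ContDiffAt ℝ ∞ (fun z : E × ℝ => U (z.1, (q : ℝ) * H z.2)) (a₀, x) :=
      (hU (q * H x)).comp (a₀, x) h1
    exact hHi.contDiffAt.comp _ ((h2.div_const _).add contDiffAt_const)
  · filter_upwards [hper] with a ha x
    have hn : ∀ (n : ℕ) (y : ℝ), U (a, y + n) = U (a, y) + n := by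
      intro n y
      induction n with
      | zero => simp
      | succ n ih =>
        push_cast
        rw [← add_assoc, ha, ih, add_assoc]
    show H⁻¹ (U (a, q * H (x + 1)) / q + b) = H⁻¹ (U (a, q * H x) / q + b) + 1
    rw [Dif.add_one hH, mul_add, mul_one, hn, ← Dif.add_one (Dif.inv_mem hH)]
    congr 1
    field_simp
    ring

lemma half_sin_cos (y : ℝ) : |sin (π * y) * cos (π * y)| ≤ 1 / 2 := by
  have h1 := sin_sq_add_cos_sq (π * y)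
  rw [abs_le]
  constructor <;> nlinarith [sq_nonneg (sin (π * y) + cos (π * y)),
    sq_nonneg (sin (π * y) - cos (π * y))]

lemma par_dot {s : ℝ} (hs : |s| ≤ 1) (y : ℝ) :
    1 + s * (1 - (0 : ℝ) ^ 2) * (sin (π * y) * cos (π * y)) ≠ 0 := by
  have h1 := half_sin_cos y
  have h2 : |s * (sin (π * y) * cos (π * y))| ≤ 1 * (1 / 2) := by
    rw [abs_mul]; gcongr
  have h3 := (abs_le.mp h2).1
  have : s * (1 - (0 : ℝ) ^ 2) * (sin (π * y) * cos (π * y)) = s * (sin (π * y) * cos (π * y)) := by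
    ring
  rw [this]
  linarith

/-- The parameters of the Möbius maps. -/
noncomputable def par (t : ℝ) (N : ℕ) : ℝ × ℝ × ℝ × ℝ :=
  (mm t N, cos (π * th N), sin (π * ka N) / mm t N, cos (π * ka N))

lemma par_tendsto {t : ℝ} (ht : 0 < t) : Tendsto (par t) atTop (𝓝 (0, 1, t / 2, 1)) := by
  have h1 : Tendsto (fun N => cos (π * th N)) atTop (𝓝 1) := by
    have h2 : Tendsto (fun N => π * th N) atTop (𝓝 0) := by
      have := th_tendsto.const_mul π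
      rwa [mul_zero] at this
    have h3 := (continuous_cos.tendsto 0).comp h2
    rw [cos_zero] at h3
    exact h3
  have h2 : Tendsto (fun N => cos (π * ka N)) atTop (𝓝 1) := by
    have h2 : Tendsto (fun N => π * ka N) atTop (𝓝 0) := by
      have := ka_tendsto.const_mul π
      rwa [mul_zero] at this
    have h3 := (continuous_cos.tendsto 0).comp h2
    rw [cos_zero] at h3
    exact h3
  have h3 : Tendsto (fun N => sin (π * ka N) / mm t N) atTop (𝓝 (t / 2)) := by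
    have h4 : Tendsto (fun N => t / (2 * cos (π * ka N))) atTop (𝓝 (t / 2)) := by
      have h5 : Tendsto (fun N => 2 * cos (π * ka N)) atTop (𝓝 (2 * 1)) := h2.const_mul 2
      have := (tendsto_const_nhds (x := t)).div h5 (by norm_num)
      rw [mul_one] at this
      exact this
    refine h4.congr' ?_
    filter_upwards [eventually_ge_atTop 1] with N hN
    unfold mm
    rw [th_eq, show π * (2 * ka N) = 2 * (π * ka N) by ring, sin_two_mul]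
    have h5 : 0 < sin (π * ka N) := by
      apply sin_pos_of_pos_of_lt_pi
      · have := ka_pos N
        positivity
      · have := ka_lt_half hN
        nlinarith [pi_pos]
    have h6 : 0 < cos (π * ka N) := by
      apply cos_pos_of_mem_Ioo
      have := ka_lt_half hN
      have := ka_pos N
      constructor <;> nlinarith [pi_pos]
    field_simp
  exact (mm_tendsto t).prodMk_nhds (h1.prodMk_nhds (h3.prodMk_nhds h2))

/-- The limiting commutator family. -/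
noncomputable def gfun (t : ℝ) (φ : Equiv.Perm ℝ) (a : ℝ × ℝ × ℝ × ℝ) (y : ℝ) : ℝ :=
  mob t a.1 a.2.1 (φ (mob (-a.2.2.1) a.1 a.2.2.2 (φ⁻¹ (mob a.2.2.1 a.1 a.2.2.2 y))))

/-- The choice of `t`, `φ`. -/
lemma levels {H : Equiv.Perm ℝ} (hH : H ∈ Dif) (b : ℝ) {q : ℕ} (hq : 0 < q) (k : ℕ) {η : ℝ}
    (hη : 0 < η) :
    ∃ t : ℝ, 0 < t ∧ t ≤ 1 ∧ ∃ ψ : ℝ → ℝ, ContDiff ℝ ∞ ψ ∧ (∀ x, ψ (x + 1) = ψ x) ∧
    (∀ x, ψ x ≠ 0 → ∃ k : ℤ, |x - 1 / 8 - k| < t / 64) ∧ (∀ᶠ x in 𝓝 (1 / 8 : ℝ), ψ x = 1) ∧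
    ∃ lam : ℝ, 0 < lam ∧ lam < 1 / 8 ∧ ∃ φ ∈ Dif, (∀ x, φ x = x + lam * ψ x) ∧
    ∀ᶠ N in atTop, ∀ j ≤ k, ∀ x,
      |iteratedDeriv j (fun x => H⁻¹ (gfun t φ (par t N) (q * H x) / q + b)) x -
        iteratedDeriv j (fun x => H⁻¹ (H x + b)) x| ≤ η := by
  have hq' : (0 : ℝ) < q := Nat.cast_pos.mpr hq
  have hη3 : 0 < η / 3 := by positivity
  -- level one
  have L1 := close_wrap (U := fun z : ℝ × ℝ => mob z.1 0 1 z.2) (a₀ := 0) (fun y => by
    apply contDiffAt_mob contDiffAt_fst contDiffAt_const contDiffAt_const contDiffAt_snd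
    exact par_dot (by simp) y) (Eventually.of_forall fun a y => mob_add_one _ _ _ _) hH b hq k hη3
  have L1' : ∀ᶠ a in 𝓝[>] (0 : ℝ), ∀ j ≤ k, ∀ x,
      |iteratedDeriv j (fun x => H⁻¹ (mob a 0 1 (q * H x) / q + b)) x -
        iteratedDeriv j (fun x => H⁻¹ (mob 0 0 1 (q * H x) / q + b)) x| ≤ η / 3 :=
    L1.filter_mono nhdsWithin_le_nhds
  obtain ⟨t, ht1, ht2⟩ := (L1'.and (Ioc_mem_nhdsGT (zero_lt_one' ℝ))).exists
  obtain ⟨ψ, hψ1, hψ2, hψ3, hψ4⟩ := exists_bump ht2.1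
  obtain ⟨e, he1, he2⟩ := exists_twist hψ1 hψ2
  have htabs : |t| ≤ 1 := by rw [abs_of_pos ht2.1]; exact ht2.2
  have htabs2 : |t / 2| ≤ 1 := by rw [abs_of_pos (by linarith [ht2.1])]; linarith [ht2.2]
  have htabs3 : |-(t / 2)| ≤ 1 := by rwa [abs_neg]
  -- level two
  have he1' : ∀ y : ℝ, ContDiffAt ℝ ∞ (fun z : ℝ × ℝ => e z.1 z.2) (0, y) := by
    intro y
    have h1 : ContDiffAt ℝ ∞ (fun z : ℝ × ℝ => z.2 + z.1 * ψ z.2) (0, y) :=
      contDiffAt_snd.add (contDiffAt_fst.mul (hψ1.contDiffAt.comp _ contDiffAt_snd))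
    refine h1.congr_of_eventuallyEq ?_
    have h1 : Tendsto (fun z : ℝ × ℝ => z.1) (𝓝 ((0 : ℝ), y)) (𝓝 0) := continuous_fst.tendsto _
    filter_upwards [h1.eventually he1] with z hz
    exact hz.2 z.2
  have L2 := close_wrap (U := fun z : ℝ × ℝ => mob t 0 1 (e z.1 (mob (-(t / 2)) 0 1
      ((e z.1)⁻¹ (mob (t / 2) 0 1 z.2))))) (a₀ := 0) (fun y => by
    have h1 : ContDiffAt ℝ ∞ (fun z : ℝ × ℝ => mob (t / 2) 0 1 z.2) (0, y) :=
      contDiffAt_mob contDiffAt_const contDiffAt_const contDiffAt_const contDiffAt_snd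
        (par_dot htabs2 y)
    have h2 : ContDiffAt ℝ ∞ (fun z : ℝ × ℝ => (e z.1)⁻¹ (mob (t / 2) 0 1 z.2)) (0, y) :=
      ContDiffAt.comp (g := fun z : ℝ × ℝ => (e z.1)⁻¹ z.2)
        (f := fun z : ℝ × ℝ => (z.1, mob (t / 2) 0 1 z.2)) (0, y) (he2 _) (contDiffAt_fst.prodMk h1)
    have h3 : ContDiffAt ℝ ∞ (fun z : ℝ × ℝ => mob (-(t / 2)) 0 1
        ((e z.1)⁻¹ (mob (t / 2) 0 1 z.2))) (0, y) :=
      contDiffAt_mob contDiffAt_const contDiffAt_const contDiffAt_const h2 (par_dot htabs3 _)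
    have h4 : ContDiffAt ℝ ∞ (fun z : ℝ × ℝ => e z.1 (mob (-(t / 2)) 0 1
        ((e z.1)⁻¹ (mob (t / 2) 0 1 z.2)))) (0, y) :=
      ContDiffAt.comp (g := fun z : ℝ × ℝ => e z.1 z.2)
        (f := fun z : ℝ × ℝ => (z.1, mob (-(t / 2)) 0 1 ((e z.1)⁻¹ (mob (t / 2) 0 1 z.2))))
        (0, y) (he1' _) (contDiffAt_fst.prodMk h3)
    exact contDiffAt_mob contDiffAt_const contDiffAt_const contDiffAt_const h4 (par_dot htabs _))
    (by
      filter_upwards [he1] with a ha y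
      show mob t 0 1 _ = mob t 0 1 _ + 1
      rw [mob_add_one, Dif.add_one (Dif.inv_mem ha.1), mob_add_one, Dif.add_one ha.1, mob_add_one])
    hH b hq k hη3
  have L2' := L2.filter_mono (nhdsWithin_le_nhds (s := Ioi (0 : ℝ)))
  have he1'' := he1.filter_mono (nhdsWithin_le_nhds (s := Ioi (0 : ℝ)))
  obtain ⟨lam, ⟨hl1, hl2⟩, hl3⟩ :=
    ((L2'.and he1'').and (Ioo_mem_nhdsGT (show (0 : ℝ) < 1 / 8 by norm_num))).exists
  have hone : ∀ y, e 0 y = y := fun y => by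
    rw [he1.self_of_nhds.2 y]; ring
  have hone' : ∀ y, (e 0)⁻¹ y = y := fun y => by
    rw [Equiv.Perm.inv_eq_iff_eq, hone]
  refine ⟨t, ht2.1, ht2.2, ψ, hψ1, hψ2, hψ3, hψ4, lam, hl3.1, hl3.2, e lam, hl2.1, hl2.2, ?_⟩
  -- level three
  set φ := e lam with hφ
  have hφd : ContDiff ℝ ∞ φ := Dif.contDiff hl2.1
  have hφd' : ContDiff ℝ ∞ (φ⁻¹ : Equiv.Perm ℝ) := Dif.contDiff (Dif.inv_mem hl2.1)
  have L3 := close_wrap (U := fun z : (ℝ × ℝ × ℝ × ℝ) × ℝ => gfun t φ z.1 z.2)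
    (a₀ := (0, 1, t / 2, 1)) (fun y => by
      have c1 : ContDiffAt ℝ ∞ (fun z : (ℝ × ℝ × ℝ × ℝ) × ℝ => z.1.1) ((0, 1, t / 2, 1), y) := by
        fun_prop
      have c2 : ContDiffAt ℝ ∞ (fun z : (ℝ × ℝ × ℝ × ℝ) × ℝ => z.1.2.1) ((0, 1, t / 2, 1), y) := by
        fun_prop
      have c3 : ContDiffAt ℝ ∞ (fun z : (ℝ × ℝ × ℝ × ℝ) × ℝ => z.1.2.2.1) ((0, 1, t / 2, 1), y) := by
        fun_prop
      have c4 : ContDiffAt ℝ ∞ (fun z : (ℝ × ℝ × ℝ × ℝ) × ℝ => z.1.2.2.2) ((0, 1, t / 2, 1), y) := by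
        fun_prop
      have h1 : ContDiffAt ℝ ∞ (fun z : (ℝ × ℝ × ℝ × ℝ) × ℝ => mob z.1.2.2.1 z.1.1 z.1.2.2.2 z.2)
          ((0, 1, t / 2, 1), y) :=
        contDiffAt_mob c3 c1 c4 contDiffAt_snd (par_dot htabs2 y)
      have h2 : ContDiffAt ℝ ∞ (fun z : (ℝ × ℝ × ℝ × ℝ) × ℝ => φ⁻¹ (mob z.1.2.2.1 z.1.1 z.1.2.2.2 z.2))
          ((0, 1, t / 2, 1), y) := hφd'.contDiffAt.comp _ h1
      have h3 : ContDiffAt ℝ ∞ (fun z : (ℝ × ℝ × ℝ × ℝ) × ℝ => mob (-z.1.2.2.1) z.1.1 z.1.2.2.2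
          (φ⁻¹ (mob z.1.2.2.1 z.1.1 z.1.2.2.2 z.2))) ((0, 1, t / 2, 1), y) :=
        contDiffAt_mob c3.neg c1 c4 h2 (par_dot htabs3 _)
      have h4 : ContDiffAt ℝ ∞ (fun z : (ℝ × ℝ × ℝ × ℝ) × ℝ => φ (mob (-z.1.2.2.1) z.1.1 z.1.2.2.2
          (φ⁻¹ (mob z.1.2.2.1 z.1.1 z.1.2.2.2 z.2)))) ((0, 1, t / 2, 1), y) :=
        hφd.contDiffAt.comp _ h3
      exact contDiffAt_mob contDiffAt_const c1 c2 h4 (par_dot htabs _))
    (Eventually.of_forall fun a y => by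
      show gfun t φ a (y + 1) = gfun t φ a y + 1
      unfold gfun
      rw [mob_add_one, Dif.add_one (Dif.inv_mem hl2.1), mob_add_one, Dif.add_one hl2.1,
        mob_add_one]) hH b hq k hη3
  have L3' := (par_tendsto ht2.1).eventually L3
  filter_upwards [L3'] with N hN j hj x
  have e1 := hN j hj x
  have e2 := hl1 j hj x
  have e3 := ht1 j hj x
  -- identify the intermediate functions
  have i1 : (fun x => H⁻¹ (gfun t φ (0, 1, t / 2, 1) (q * H x) / q + b)) =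
      (fun x => H⁻¹ (mob t 0 1 (e lam (mob (-(t / 2)) 0 1
      ((e lam)⁻¹ (mob (t / 2) 0 1 (q * H x))))) / q + b)) := rfl
  have i2 : (fun x => H⁻¹ (mob t 0 1 (e 0 (mob (-(t / 2)) 0 1
      ((e 0)⁻¹ (mob (t / 2) 0 1 (q * H x))))) / q + b)) =
      (fun x => H⁻¹ (mob t 0 1 (q * H x) / q + b)) := by
    funext x
    rw [hone, hone']
    congr 3
    have := mob_parabolic (s := -(t / 2)) (y := q * H x) htabs3
    rw [neg_neg] at this
    rw [this]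
  have i3 : (fun x => H⁻¹ (mob 0 0 1 (q * H x) / q + b)) = (fun x => H⁻¹ (H x + b)) := by
    funext x
    rw [mob_zero one_pos]
    congr 2
    field_simp
  simp only [i2] at e2
  rw [i3] at e3
  simp only [i1] at e1
  rw [abs_le] at *
  constructor <;> linarith

end Pool.Agent.Helper68
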