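import Pool.Agent.Helper68.Mob
import Pool.Agent.Helper68.Comb

set_option autoImplicit false

open Set Filter Topology Real
open scoped ContDiff

namespace Pool.Agent.Helper68

/-- The derivative of a conjugated translation. -/
lemma conj_hasDerivAt {m : ℝ} (hm : 0 < m) (v w : ℝ) :
    HasDerivAt (fun w => Dm m⁻¹ (Dm m w + v))
      (m ^ 2 * (1 / ((m ^ 2 * cos (π * (Dm m w + v)) ^ 2 + sin (π * (Dm m w + v)) ^ 2) *
        (cos (π * w) ^ 2 + m ^ 2 * sin (π * w) ^ 2)))) w := by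
  have h1 := (Dm_hasDerivAt hm w).add_const v
  have h2 := Dm_hasDerivAt (inv_pos.mpr hm) (Dm m w + v)
  have h3 := h2.comp w h1
  refine h3.congr_deriv ?_
  have h4 := Dm_denom hm w
  have h5 := Dm_denom (inv_pos.mpr hm) (Dm m w + v)
  set C := cos (π * (Dm m w + v))
  set S := sin (π * (Dm m w + v))
  have h6 : m ^ 2 * C ^ 2 + S ^ 2 = m ^ 2 * (C ^ 2 + m⁻¹ ^ 2 * S ^ 2) := by
    field_simp
  rw [h6]
  field_simp

lemma Dm_zero {y : ℝ} (hy : |y| < 1 / 2) : Dm 0 y = 0 := by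
  have hc : 0 < cos (π * y) := by
    apply cos_pos_of_mem_Ioo
    rw [abs_lt] at hy
    constructor <;> nlinarith [pi_pos]
  have h1 : Ray (Dm 0 y) (cos (π * y)) (0 * sin (π * y)) := by
    apply ang_ray
    have : cos (π * y) * cos (π * y) + 0 * sin (π * y) * sin (π * y) = cos (π * y) * cos (π * y) := by
      ring
    rw [this]
    positivity
  have h2 : Ray 0 (cos (π * y)) (0 * sin (π * y)) := ⟨cos (π * y), hc, by simp, by simp⟩
  refine h1.unique h2 ?_
  have h3 : |Dm 0 y - y| < 1 / 2 := ang_sub _ _ _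
  rw [abs_lt] at *
  constructor <;> linarith

lemma Dm_tendsto_zero {y : ℝ} (hy : |y| < 1 / 2) : Tendsto (fun m => Dm m y) (𝓝 0) (𝓝 0) := by
  have hc : 0 < cos (π * y) := by
    apply cos_pos_of_mem_Ioo
    rw [abs_lt] at hy
    constructor <;> nlinarith [pi_pos]
  have h1 : ContDiffAt ℝ ∞ (fun m : ℝ => Dm m y) 0 := by
    apply contDiffAt_Dm contDiffAt_id contDiffAt_const
    have : cos (π * y) * cos (π * y) + id 0 * sin (π * y) * sin (π * y)
      = cos (π * y) * cos (π * y) := by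
      simp
    rw [this]
    positivity
  have h2 := h1.continuousAt.tendsto
  rwa [Dm_zero hy] at h2

lemma Dm_inv_eq {m : ℝ} (hm : 0 < m) (z : ℝ) : Dm m⁻¹ z = ang z (m * cos (π * z)) (sin (π * z)) := by
  unfold Dm ang
  congr 3
  have h1 : (m⁻¹ * sin (π * z) * cos (π * z) - cos (π * z) * sin (π * z)) =
    m⁻¹ * (sin (π * z) * cos (π * z) - m * cos (π * z) * sin (π * z)) := by
    field_simp
  have h2 : (cos (π * z) * cos (π * z) + m⁻¹ * sin (π * z) * sin (π * z)) =
    m⁻¹ * (m * cos (π * z) * cos (π * z) + sin (π * z) * sin (π * z)) := by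
    field_simp
  rw [h1, h2, mul_div_mul_left _ _ (inv_pos.mpr hm).ne']

lemma Dm_tendsto_half {ι : Type} {l : Filter ι} {m z : ι → ℝ} (hm : Tendsto m l (𝓝 0))
    (hpos : ∀ᶠ i in l, 0 < m i) (hz : Tendsto z l (𝓝 (1 / 2))) :
    Tendsto (fun i => Dm (m i)⁻¹ (z i)) l (𝓝 (1 / 2)) := by
  have hcos : cos (π * (1 / 2)) = 0 := by rw [show π * (1 / 2) = π / 2 by ring, cos_pi_div_two]
  have hsin : sin (π * (1 / 2)) = 1 := by rw [show π * (1 / 2) = π / 2 by ring, sin_pi_div_two]
  have h1 : ContDiffAt ℝ ∞ (fun p : ℝ × ℝ => ang p.2 (p.1 * cos (π * p.2)) (sin (π * p.2)))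
      (0, 1 / 2) := by
    apply contDiffAt_ang contDiffAt_snd
    · exact contDiffAt_fst.mul (contDiffAt_const.mul contDiffAt_snd).cos
    · exact (contDiffAt_const.mul contDiffAt_snd).sin
    · simp only [hcos, hsin]
      norm_num
  have h2 : Tendsto (fun i => (m i, z i)) l (𝓝 ((0 : ℝ), (1 / 2 : ℝ))) := hm.prodMk_nhds hz
  have h3 := h1.continuousAt.tendsto.comp h2
  have h4 : ang (1 / 2) (0 * cos (π * (1 / 2))) (sin (π * (1 / 2))) = 1 / 2 := by
    unfold ang
    rw [hcos, hsin]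
    simp
  simp only [h4] at h3
  refine h3.congr' ?_
  filter_upwards [hpos] with i hi
  simp only [Function.comp]
  rw [Dm_inv_eq hi]

/-! ### The parameters -/

/-- `θ = 2 / (2N+1)`. -/
noncomputable def th (N : ℕ) : ℝ := 2 / (2 * N + 1)

/-- `κ = 1 / (2N+1)`. -/
noncomputable def ka (N : ℕ) : ℝ := 1 / (2 * N + 1)

/-- The dilation parameter. -/
noncomputable def mm (t : ℝ) (N : ℕ) : ℝ := sin (π * th N) / t

lemma den_pos (N : ℕ) : (0 : ℝ) < 2 * N + 1 := by positivity

lemma th_eq (N : ℕ) : th N = 2 * ka N := by unfold th ka; ring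

lemma ka_pos (N : ℕ) : 0 < ka N := by unfold ka; positivity

lemma ka_tendsto : Tendsto ka atTop (𝓝 0) := by
  have h1 : Tendsto (fun N : ℕ => (2 * (N : ℝ) + 1)) atTop atTop :=
    tendsto_atTop_add_const_right _ _ (tendsto_natCast_atTop_atTop.const_mul_atTop two_pos)
  exact tendsto_const_nhds.div_atTop h1

lemma th_tendsto : Tendsto th atTop (𝓝 0) := by
  have h := ka_tendsto.const_mul 2
  rw [mul_zero] at h
  refine h.congr fun N => (th_eq N).symm

lemma N_th (N : ℕ) : N * th N = 1 - ka N := by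
  unfold th ka
  have := den_pos N
  field_simp
  ring

lemma ka_lt_half {N : ℕ} (hN : 1 ≤ N) : ka N < 1 / 2 := by
  unfold ka
  have h : (1 : ℝ) ≤ N := by exact_mod_cast hN
  rw [div_lt_div_iff₀ (den_pos N) two_pos]
  linarith

lemma mm_pos {t : ℝ} (ht : 0 < t) {N : ℕ} (hN : 1 ≤ N) : 0 < mm t N := by
  unfold mm
  apply div_pos _ ht
  apply sin_pos_of_pos_of_lt_pi
  · have := ka_pos N
    rw [th_eq]
    positivity
  · have := ka_lt_half hN
    rw [th_eq]
    nlinarith [pi_pos]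

lemma mm_tendsto (t : ℝ) : Tendsto (mm t) atTop (𝓝 0) := by
  have h1 : Tendsto (fun N => sin (π * th N)) atTop (𝓝 0) := by
    have h2 : Tendsto (fun N => π * th N) atTop (𝓝 0) := by
      have := th_tendsto.const_mul π
      rwa [mul_zero] at this
    have h3 := (continuous_sin.tendsto 0).comp h2
    rw [sin_zero] at h3
    exact h3
  have := h1.div_const t
  rwa [zero_div] at this

lemma half_tendsto : Tendsto (fun N : ℕ => ((N / 2 : ℕ) : ℝ) * th N) atTop (𝓝 (1 / 2)) := by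
  have h1 : ∀ N : ℕ, |((N / 2 : ℕ) : ℝ) * th N - 1 / 2| ≤ 2 * ka N := by
    intro N
    have h2 : ((N : ℝ) - 1) / 2 ≤ ((N / 2 : ℕ) : ℝ) := by
      have : N - 1 ≤ 2 * (N / 2) := by omega
      have h3 : N ≤ 2 * (N / 2) + 1 := by omega
      have h4 : (N : ℝ) ≤ 2 * ((N / 2 : ℕ) : ℝ) + 1 := by exact_mod_cast h3
      linarith
    have h5 : ((N / 2 : ℕ) : ℝ) ≤ (N : ℝ) / 2 := by
      have : 2 * (N / 2) ≤ N := by omega
      have h4 : 2 * ((N / 2 : ℕ) : ℝ) ≤ N := by exact_mod_cast this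
      linarith
    have h6 := ka_pos N
    have h7 : ka N * (2 * N + 1) = 1 := by
      unfold ka
      have := den_pos N
      field_simp
    rw [th_eq, abs_le]
    constructor <;> nlinarith
  have h2 : Tendsto (fun N => 2 * ka N) atTop (𝓝 0) := by
    have := ka_tendsto.const_mul 2
    rwa [mul_zero] at this
  exact tendsto_iff_norm_sub_tendsto_zero.mpr (squeeze_zero (fun N => norm_nonneg _) h1 h2)

end Pool.Agent.Helper68
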