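import Pool.Agent.Helper68.Main

set_option autoImplicit false

open Set Filter Topology Real
open scoped ContDiff

namespace Pool.Agent.Helper68

/-- An element of `Dif` as a degree one lift. -/
def toC (e : Equiv.Perm ℝ) (he : e ∈ Dif) : CircleDeg1Lift where
  toFun := e
  monotone' := (Dif.strictMono he).monotone
  map_add_one' := Dif.add_one he

lemma toC_pow {e : Equiv.Perm ℝ} (he : e ∈ Dif) (n : ℕ) (x : ℝ) :
    (toC e he ^ n) x = (e ^ n) x := by
  rw [CircleDeg1Lift.coe_pow, ← Equiv.Perm.iterate_eq_pow]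
  rfl

/-- The rotation number. -/
noncomputable def rot (e : Equiv.Perm ℝ) (he : e ∈ Dif) : ℝ := (toC e he).translationNumber

lemma rot_R (v : ℝ) : rot (R v) (R_mem v) = v := by
  apply le_antisymm
  · apply CircleDeg1Lift.translationNumber_le_of_le_add
    intro x
    exact le_refl _
  · apply CircleDeg1Lift.le_translationNumber_of_add_le
    intro x
    exact le_refl _

lemma rot_conj {H : Equiv.Perm ℝ} (hH : H ∈ Dif) (v : ℝ) (he : H⁻¹ * R v * H ∈ Dif) :
    rot (H⁻¹ * R v * H) he = v := by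
  have h1 : (toC (H⁻¹ * R v * H) he).translationNumber = (toC (R v) (R_mem v)).translationNumber := by
    apply CircleDeg1Lift.translationNumber_eq_of_semiconj (f := toC H hH)
    intro x
    show H ((H⁻¹ * R v * H) x) = R v (H x)
    rw [Equiv.Perm.mul_apply, Equiv.Perm.mul_apply, p_apply_inv]
  unfold rot
  rw [h1]
  exact rot_R v

lemma rot_bound {e : Equiv.Perm ℝ} (he : e ∈ Dif) (n : ℕ) : |(e ^ n) 0 - n * rot e he| ≤ 1 := by
  have := (toC e he).dist_pow_map_zero_mul_translationNumber_le n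
  rw [toC_pow, dist_eq] at this
  exact this

/-- Convergence of iterates and of their derivatives. -/
lemma iter_tendsto {G : ℕ → Equiv.Perm ℝ} {f : Equiv.Perm ℝ} (hG : ∀ i, G i ∈ Dif) (hf : f ∈ Dif)
    {d : ℕ → ℝ} (hd : Tendsto d atTop (𝓝 0)) (h0 : ∀ i x, |G i x - f x| ≤ d i)
    (h1 : ∀ i x, |deriv (G i) x - deriv f x| ≤ d i) (n : ℕ) (x : ℝ) :
    Tendsto (fun i => (G i ^ n) x) atTop (𝓝 ((f ^ n) x)) ∧
      Tendsto (fun i => deriv (G i ^ n : Equiv.Perm ℝ) x) atTop (𝓝 (deriv (f ^ n : Equiv.Perm ℝ) x)) := by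
  have hfc : Continuous f := (Dif.contDiff hf).continuous
  have hfc' : Continuous (deriv f) := (Dif.contDiff hf).continuous_deriv (by simp)
  induction n with
  | zero =>
    simp only [pow_zero]
    exact ⟨tendsto_const_nhds, tendsto_const_nhds⟩
  | succ n ih =>
    obtain ⟨ih1, ih2⟩ := ih
    constructor
    · have e1 : (f ^ (n + 1)) x = f ((f ^ n) x) := by rw [pow_succ']; rfl
      have e2 : ∀ i, (G i ^ (n + 1)) x = G i ((G i ^ n) x) := fun i => by rw [pow_succ']; rfl
      simp only [e1, e2]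
      have h2 : Tendsto (fun i => f ((G i ^ n) x)) atTop (𝓝 (f ((f ^ n) x))) :=
        (hfc.tendsto _).comp ih1
      have h3 : Tendsto (fun i => G i ((G i ^ n) x) - f ((G i ^ n) x)) atTop (𝓝 0) :=
        squeeze_zero_norm (fun i => h0 i _) hd
      have h4 := h3.add h2
      simpa using h4
    · have e1 : deriv (f ^ (n + 1) : Equiv.Perm ℝ) x =
          deriv f ((f ^ n) x) * deriv (f ^ n : Equiv.Perm ℝ) x := by
        have : ((f ^ (n + 1) : Equiv.Perm ℝ) : ℝ → ℝ) = f ∘ (f ^ n : Equiv.Perm ℝ) := by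
          rw [pow_succ']; rfl
        rw [this]
        exact ((Dif.hasDerivAt hf _).comp x (Dif.hasDerivAt (Dif.pow_mem hf n) x)).deriv
      have e2 : ∀ i, deriv (G i ^ (n + 1) : Equiv.Perm ℝ) x =
          deriv (G i) ((G i ^ n) x) * deriv (G i ^ n : Equiv.Perm ℝ) x := by
        intro i
        have : ((G i ^ (n + 1) : Equiv.Perm ℝ) : ℝ → ℝ) = G i ∘ (G i ^ n : Equiv.Perm ℝ) := by
          rw [pow_succ']; rfl
        rw [this]
        exact ((Dif.hasDerivAt (hG i) _).comp x
          (Dif.hasDerivAt (Dif.pow_mem (hG i) n) x)).deriv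
      simp only [e1, e2]
      have h2 : Tendsto (fun i => deriv f ((G i ^ n) x)) atTop (𝓝 (deriv f ((f ^ n) x))) :=
        (hfc'.tendsto _).comp ih1
      have h3 : Tendsto (fun i => deriv (G i) ((G i ^ n) x) - deriv f ((G i ^ n) x)) atTop (𝓝 0) :=
        squeeze_zero_norm (fun i => h1 i _) hd
      have h4 := h3.add h2
      have h5 : Tendsto (fun i => deriv (G i) ((G i ^ n) x)) atTop (𝓝 (deriv f ((f ^ n) x))) := by
        simpa using h4
      exact h5.mul ih2

/-- Stability. -/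
lemma stable {f : Equiv.Perm ℝ} (hf : f ∈ Dif) {N : ℕ} {P : ℝ} {c : ℝ} (h : |rot f hf - P| < c)
    {x y b : ℝ} (hb : b < |deriv (f ^ N : Equiv.Perm ℝ) x - deriv (f ^ N : Equiv.Perm ℝ) y|) :
    ∃ d > 0, ∀ g : Equiv.Perm ℝ, ∀ hg : g ∈ Dif, (∀ x, |g x - f x| ≤ d) →
      (∀ x, |deriv g x - deriv f x| ≤ d) → |rot g hg - P| < c ∧
        b < |deriv (g ^ N : Equiv.Perm ℝ) x - deriv (g ^ N : Equiv.Perm ℝ) y| := by
  by_contra hcon
  push Not at hcon
  have hpos : ∀ i : ℕ, (0 : ℝ) < 1 / ((i : ℝ) + 1) := fun i => by positivity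
  choose G hG h0 h1 h2 using fun i : ℕ => hcon (1 / ((i : ℝ) + 1)) (hpos i)
  have hd : Tendsto (fun i : ℕ => 1 / ((i : ℝ) + 1)) atTop (𝓝 0) :=
    tendsto_one_div_add_atTop_nhds_zero_nat
  have hx := (iter_tendsto hG hf hd h0 h1 N x).2
  have hy := (iter_tendsto hG hf hd h0 h1 N y).2
  have e1 := ((hx.sub hy).abs).eventually (lt_mem_nhds hb)
  -- rotation number
  obtain ⟨m, hm⟩ := exists_nat_gt (3 / (c - |rot f hf - P|))
  have hε : 0 < c - |rot f hf - P| := by linarith
  have hm0 : (0 : ℝ) < m := lt_trans (by positivity) hm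
  have hz := (iter_tendsto hG hf hd h0 h1 m 0).1
  have e2 := ((hz.sub_const ((f ^ m) 0)).abs).eventually
    (gt_mem_nhds (show |(f ^ m) 0 - (f ^ m) 0| < 1 by rw [sub_self, abs_zero]; exact one_pos))
  obtain ⟨i, hi1, hi2⟩ := (e1.and e2).exists
  have h3 : |rot (G i) (hG i) - P| < c := by
    have h4 := rot_bound (hG i) m
    have h5 := rot_bound hf m
    have h6 : (m : ℝ) * |rot (G i) (hG i) - rot f hf| ≤ 3 := by
      have e : (m : ℝ) * |rot (G i) (hG i) - rot f hf| =
          |m * (rot (G i) (hG i) - rot f hf)| := by rw [abs_mul, abs_of_pos hm0]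
      rw [e]
      rw [abs_le] at h4 h5 ⊢
      rw [abs_lt] at hi2
      constructor <;> nlinarith
    have h7 : |rot (G i) (hG i) - rot f hf| ≤ 3 / m := by
      rw [le_div_iff₀ hm0]; linarith
    have h8 : 3 / (m : ℝ) < c - |rot f hf - P| := by
      rw [div_lt_iff₀ hm0]
      rw [div_lt_iff₀ hε] at hm
      linarith
    have h9 := abs_sub_le (rot (G i) (hG i)) (rot f hf) P
    linarith
  exact absurd (h2 i h3) (not_le.mpr hi1)

/-- The states of the construction. -/
structure St where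
  H : Equiv.Perm ℝ
  hH : H ∈ Dif
  α : ℚ
  d : ℝ
  hd : 0 < d
  N : ℕ

/-- The map of a state. -/
noncomputable def St.f (s : St) : Equiv.Perm ℝ := s.H⁻¹ * R s.α * s.H

lemma St.f_mem (s : St) : s.f ∈ Dif := Dif.mul_mem (Dif.mul_mem (Dif.inv_mem s.hH) (R_mem _)) s.hH

/-- The relation between consecutive states. -/
def Rel (n : ℕ) (s s' : St) : Prop :=
  (∀ j ≤ n + 1, ∀ x, |iteratedDeriv j s'.f x - iteratedDeriv j s.f x| ≤ s.d / 2) ∧
  s'.d ≤ s.d / 2 ∧ s.N < s'.N ∧
  ∃ P : ℤ, IsCoprime P (s'.N : ℤ) ∧ ∃ x y : ℝ, |x - y| ≤ 1 ∧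
    ∀ g : Equiv.Perm ℝ, ∀ hg : g ∈ Dif, (∀ x, |g x - s'.f x| ≤ s'.d) →
      (∀ x, |deriv g x - deriv s'.f x| ≤ s'.d) →
      |rot g hg - P / s'.N| < 1 / (2 * s'.N ^ 2) ∧
        n * |x - y| ^ (1 / ((n : ℝ) + 1)) <
          |deriv (g ^ s'.N : Equiv.Perm ℝ) x - deriv (g ^ s'.N : Equiv.Perm ℝ) y|

lemma exists_next (n : ℕ) (s : St) : ∃ s', Rel n s s' := by
  obtain ⟨H', hH', α', hclose, N, hN, hN0, P, hP, hρ, x, y, hxy, hgap⟩ :=
    step s.hH s.α (n + 1) (half_pos s.hd) n (a := 1 / ((n : ℝ) + 1)) (by positivity) (s.N + 1)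
  have hmem : H'⁻¹ * R α' * H' ∈ Dif := Dif.mul_mem (Dif.mul_mem (Dif.inv_mem hH') (R_mem _)) hH'
  rw [← rot_conj hH' (α' : ℝ) hmem] at hρ
  obtain ⟨d, hd, hstab⟩ := stable hmem hρ hgap
  refine ⟨⟨H', hH', α', min d (s.d / 2), lt_min hd (half_pos s.hd), N⟩, hclose, min_le_right _ _,
    by show s.N < N; omega, P, hP, x, y, hxy, ?_⟩
  intro g hg h0 h1
  exact hstab g hg (fun x => (h0 x).trans (min_le_left _ _)) (fun x => (h1 x).trans (min_le_left _ _))

theorem exists_bad : ∃ F : Equiv.Perm ℝ, ∃ hF : F ∈ Dif, ∀ n : ℕ, ∃ N : ℕ, n < N ∧ ∃ P : ℤ,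
    IsCoprime P (N : ℤ) ∧ |rot F hF - P / N| < 1 / (2 * N ^ 2) ∧ ∃ x y : ℝ, |x - y| ≤ 1 ∧
      n * |x - y| ^ (1 / ((n : ℝ) + 1)) <
          |deriv (F ^ N : Equiv.Perm ℝ) x - deriv (F ^ N : Equiv.Perm ℝ) y| := by
  choose nxt hnxt using exists_next
  let s₀ : St := ⟨1, Dif.one_mem, 0, 1 / 2, by norm_num, 0⟩
  let seq : ℕ → St := fun n => Nat.rec s₀ (fun n s => nxt n s) n
  have hseq0 : seq 0 = s₀ := rfl
  have hrel : ∀ n, Rel n (seq n) (seq (n + 1)) := fun n => hnxt n (seq n)
  clear_value seq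
  have hdhalf : ∀ n, (seq (n + 1)).d ≤ (seq n).d / 2 := fun n => (hrel n).2.1
  have hdle : ∀ n, (seq n).d ≤ (1 / 2) ^ (n + 1) := by
    intro n
    induction n with
    | zero => rw [hseq0]; norm_num [s₀]
    | succ n ih =>
      have := hdhalf n
      rw [pow_succ]
      linarith
  have hNlt : ∀ n, n ≤ (seq n).N := by
    intro n
    induction n with
    | zero => omega
    | succ n ih =>
      have := (hrel n).2.2.1
      omega
  set f : ℕ → ℝ → ℝ := fun n => (seq n).f with hf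
  have hfs : ∀ n, ContDiff ℝ ∞ (f n) := fun n => Dif.contDiff (seq n).f_mem
  have hfclose : ∀ n, ∀ j ≤ n + 1, ∀ x,
      |iteratedDeriv j (f (n + 1)) x - iteratedDeriv j (f n) x| ≤ (seq n).d / 2 :=
    fun n => (hrel n).1
  let u : ℕ → ℝ → ℝ := fun i x => f (i + 1) x - f i x
  have hus : ∀ i, ContDiff ℝ ∞ (u i) := fun i => (hfs (i + 1)).sub (hfs i)
  have hudj : ∀ i j x, iteratedDeriv j (u i) x =
      iteratedDeriv j (f (i + 1)) x - iteratedDeriv j (f i) x := by
    intro i j x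
    exact iteratedDeriv_fun_sub ((hfs (i + 1)).contDiffAt.of_le (by exact_mod_cast le_top))
      ((hfs i).contDiffAt.of_le (by exact_mod_cast le_top))
  have hubound : ∀ i j, j ≤ i + 1 → ∀ x, |iteratedDeriv j (u i) x| ≤ (1 / 2) ^ i := by
    intro i j hj x
    rw [hudj]
    have h1 := hfclose i j hj x
    have h2 := hdle i
    have h3 : ((1 : ℝ) / 2) ^ (i + 1) ≤ (1 / 2) ^ i := by
      rw [pow_succ]
      have : (0 : ℝ) < (1 / 2) ^ i := by positivity
      linarith
    have h4 : (0 : ℝ) < (1 / 2) ^ i := by positivity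
    linarith
  have hgeo : Summable (fun i : ℕ => ((1 : ℝ) / 2) ^ i) := summable_geometric_two
  have hsum0 : ∀ x, Summable (fun i => u i x) := by
    intro x
    refine Summable.of_norm_bounded hgeo (fun i => ?_)
    have := hubound i 0 (by omega) x
    simpa using this
  let F : ℝ → ℝ := fun x => f 0 x + ∑' i, u i x
  have hFs : ContDiff ℝ ∞ F := by
    refine (hfs 0).add ?_
    refine contDiff_tsum_of_eventually (v := fun _ i => ((1 : ℝ) / 2) ^ i) hus (fun _ _ => hgeo) ?_
    intro k _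
    rw [Nat.cofinite_eq_atTop]
    filter_upwards [eventually_ge_atTop k] with i hi x
    rw [norm_iteratedFDeriv_eq_norm_iteratedDeriv]
    exact hubound i k (by omega) x
  have htel : ∀ n x, ∑ i ∈ Finset.range n, u i x = f n x - f 0 x := by
    intro n x
    exact Finset.sum_range_sub (fun i => f i x) n
  have hlim0 : ∀ x, Tendsto (fun n => f n x) atTop (𝓝 (F x)) := by
    intro x
    have h1 := (hsum0 x).hasSum.tendsto_sum_nat
    have h2 := h1.const_add (f 0 x)
    refine h2.congr fun n => ?_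
    rw [htel]; ring
  have hud : ∀ i x, HasDerivAt (u i) (deriv (u i) x) x := fun i x =>
    ((hus i).differentiable (by simp)).differentiableAt.hasDerivAt
  have hub1 : ∀ i x, ‖deriv (u i) x‖ ≤ (1 / 2) ^ i := by
    intro i x
    have := hubound i 1 (by omega) x
    rwa [iteratedDeriv_one] at this
  have hu1 : ∀ i x, deriv (u i) x = deriv (f (i + 1)) x - deriv (f i) x := by
    intro i x
    have := hudj i 1 x
    simpa [iteratedDeriv_one] using this
  have hFd : ∀ x, HasDerivAt F (deriv (f 0) x + ∑' i, deriv (u i) x) x := by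
    intro x
    have h1 := hasDerivAt_tsum hgeo hud hub1 (hsum0 0) x
    have h2 : HasDerivAt (f 0) (deriv (f 0) x) x :=
      ((hfs 0).differentiable (by simp)).differentiableAt.hasDerivAt
    exact h2.add h1
  have hlim1 : ∀ x, Tendsto (fun n => deriv (f n) x) atTop (𝓝 (deriv F x)) := by
    intro x
    rw [(hFd x).deriv]
    have hs : Summable (fun i => deriv (u i) x) := Summable.of_norm_bounded hgeo (fun i => hub1 i x)
    have h1 := hs.hasSum.tendsto_sum_nat
    have h2 := h1.const_add (deriv (f 0) x)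
    refine h2.congr fun n => ?_
    simp only [hu1]
    rw [Finset.sum_range_sub (fun i => deriv (f i) x) n]
    ring
  -- distance estimates
  have hdist0 : ∀ n m, n ≤ m → ∀ x, |f m x - f n x| ≤ (seq n).d - (seq m).d := by
    intro n m hnm x
    induction m, hnm using Nat.le_induction with
    | base => simp
    | succ m hm ih =>
      have h1 := hfclose m 0 (by omega) x
      simp only [iteratedDeriv_zero] at h1
      have h2 := hdhalf m
      have h3 := abs_sub_le (f (m + 1) x) (f m x) (f n x)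
      linarith
  have hdist1 : ∀ n m, n ≤ m → ∀ x, |deriv (f m) x - deriv (f n) x| ≤ (seq n).d - (seq m).d := by
    intro n m hnm x
    induction m, hnm using Nat.le_induction with
    | base => simp
    | succ m hm ih =>
      have h1 := hfclose m 1 (by omega) x
      simp only [iteratedDeriv_one] at h1
      have h2 := hdhalf m
      have h3 := abs_sub_le (deriv (f (m + 1)) x) (deriv (f m) x) (deriv (f n) x)
      linarith
  have hF0 : ∀ n x, |F x - f n x| ≤ (seq n).d := by
    intro n x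
    refine le_of_tendsto (((hlim0 x).sub_const (f n x)).abs) ?_
    filter_upwards [eventually_ge_atTop n] with m hm
    have := hdist0 n m hm x
    have := (seq m).hd
    linarith
  have hF1 : ∀ n x, |deriv F x - deriv (f n) x| ≤ (seq n).d := by
    intro n x
    refine le_of_tendsto (((hlim1 x).sub_const (deriv (f n) x)).abs) ?_
    filter_upwards [eventually_ge_atTop n] with m hm
    have := hdist1 n m hm x
    have := (seq m).hd
    linarith
  have hFadd : ∀ x, F (x + 1) = F x + 1 := by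
    intro x
    have h1 := hlim0 (x + 1)
    have h2 := (hlim0 x).add_const 1
    refine tendsto_nhds_unique h1 (h2.congr fun n => ?_)
    exact (Dif.add_one (seq n).f_mem x).symm
  have hf0 : f 0 = fun x => x := by
    funext x
    show (seq 0).f x = x
    rw [hseq0]
    show ((1 : Equiv.Perm ℝ)⁻¹ * R ((0 : ℚ) : ℝ) * 1) x = x
    rw [Rat.cast_zero, R_zero]
    simp
  have hFpos : ∀ x, 0 < deriv F x := by
    intro x
    have h1 := hF1 0 x
    rw [hf0, deriv_id'', hseq0] at h1
    have h2 := (abs_le.mp h1).1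
    have h3 : s₀.d = 1 / 2 := rfl
    rw [h3] at h2
    linarith
  obtain ⟨e, he, heF⟩ := mkDif hFs hFpos hFadd
  refine ⟨e, he, fun n => ?_⟩
  obtain ⟨-, -, -, P, hP, x, y, hxy, hg⟩ := hrel n
  obtain ⟨h1, h2⟩ := hg e he (fun x => by rw [heF]; exact hF0 (n + 1) x)
    (fun x => by rw [heF]; exact hF1 (n + 1) x)
  exact ⟨(seq (n + 1)).N, by have := hNlt (n + 1); omega, P, hP, h1, x, y, hxy, h2⟩

end Pool.Agent.Helper68
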