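import Pool.Agent.Helper68.Gap

set_option autoImplicit false

open Set Filter Topology Real
open scoped ContDiff

namespace Pool.Agent.Helper68

lemma exists_bezout (α : ℚ) (N₁ : ℕ) :
    ∃ N ≥ N₁, ∃ P : ℤ, (α.den : ℤ) * P - α.num * N = 1 := by
  have hcop : IsCoprime (α.den : ℤ) α.num := by
    have h := α.reduced
    rw [Int.isCoprime_iff_gcd_eq_one, Int.gcd_comm]
    exact h
  obtain ⟨a, b, hab⟩ := hcop
  have hq : 0 < (α.den : ℤ) := by exact_mod_cast α.den_pos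
  set c : ℤ := |b| + N₁ with hc
  have hN : (N₁ : ℤ) ≤ -b + α.den * c := by
    have h1 : c ≤ α.den * c := by
      have : 0 ≤ c := by positivity
      nlinarith
    have := neg_abs_le b
    have := le_abs_self b
    omega
  refine ⟨(-b + α.den * c).toNat, ?_, a + α.num * c, ?_⟩
  · have := Int.toNat_of_nonneg (a := -b + α.den * c) (by omega)
    omega
  · rw [Int.toNat_of_nonneg (by omega)]
    linear_combination hab

lemma Dif.tS_mem {E φ : Equiv.Perm ℝ} (hE : E ∈ Dif) (hφ : φ ∈ Dif) (n : ℕ) : tS E φ n ∈ Dif := by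
  induction n with
  | zero => exact Dif.one_mem
  | succ n ih =>
    refine Dif.mul_mem ih ?_
    exact Dif.mul_mem (Dif.mul_mem (Dif.zpow_mem hE _) (Dif.inv_mem hφ)) (Dif.zpow_mem hE _)

theorem step {H : Equiv.Perm ℝ} (hH : H ∈ Dif) (α : ℚ) (k : ℕ) {η : ℝ} (hη : 0 < η) (B : ℝ)
    {a : ℝ} (ha : 0 < a) (N₀ : ℕ) :
    ∃ H' ∈ Dif, ∃ α' : ℚ,
      (∀ j ≤ k, ∀ x, |iteratedDeriv j (H'⁻¹ * R α' * H' : Equiv.Perm ℝ) x -
        iteratedDeriv j (H⁻¹ * R α * H : Equiv.Perm ℝ) x| ≤ η) ∧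
      ∃ N ≥ N₀, 0 < N ∧ ∃ P : ℤ, IsCoprime P (N : ℤ) ∧ |(α' : ℝ) - P / N| < 1 / (2 * N ^ 2) ∧
        ∃ x y : ℝ, |x - y| ≤ 1 ∧ B * |x - y| ^ a <
          |deriv ((H'⁻¹ * R α' * H') ^ N : Equiv.Perm ℝ) x -
            deriv ((H'⁻¹ * R α' * H') ^ N : Equiv.Perm ℝ) y| := by
  have hq : 0 < α.den := α.den_pos
  have hq' : (0 : ℝ) < α.den := Nat.cast_pos.mpr hq
  obtain ⟨t, ht, ht1, ψ, hψ1, hψ2, hψ3, hψ4, lam, hl0, hl1, φ, hφ, hφx, hclose⟩ :=
    levels hH (α : ℝ) hq k hη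
  have hφfun : (φ : ℝ → ℝ) = fun x => x + lam * ψ x := funext hφx
  -- behaviour of φ near the two points
  have h0 : φ (1 / 8) = 1 / 8 + lam := by rw [hφx, hψ4.self_of_nhds, mul_one]
  have h0' : deriv φ (1 / 8) = 1 := by
    have h1 : (φ : ℝ → ℝ) =ᶠ[𝓝 (1 / 8)] fun x => x + lam := by
      filter_upwards [hψ4] with x hx
      rw [hφx, hx, mul_one]
    rw [h1.deriv_eq]
    simp
  have hψ0 : ∀ᶠ x in 𝓝 (1 / 8 + t / 32), ψ x = 0 := by
    have hI : Ioo (1 / 8 + t / 64) (1 / 8 + 3 * t / 64) ∈ 𝓝 (1 / 8 + t / 32) :=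
      Ioo_mem_nhds (by linarith) (by linarith)
    filter_upwards [hI] with x hx
    by_contra hne
    obtain ⟨k, hk⟩ := hψ3 x hne
    rw [abs_lt] at hk
    have k1 : (-1 : ℝ) < k := by linarith [hx.1, hx.2]
    have k2 : (k : ℝ) < 1 := by linarith [hx.1, hx.2]
    have k3 : -1 < k := by exact_mod_cast k1
    have k4 : k < 1 := by exact_mod_cast k2
    have k5 : k = 0 := by omega
    rw [k5] at hk
    push_cast at hk
    linarith [hx.1]
  have h1 : φ (1 / 8 + t / 32) = 1 / 8 + t / 32 := by rw [hφx, hψ0.self_of_nhds]; ring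
  have h1' : deriv φ (1 / 8 + t / 32) = 1 := by
    have h1 : (φ : ℝ → ℝ) =ᶠ[𝓝 (1 / 8 + t / 32)] fun x => x := by
      filter_upwards [hψ0] with x hx
      rw [hφx, hx]; ring
    rw [h1.deriv_eq]
    simp
  have hgap := gap_eventually hH hφ hq ht ht1 hl0 hl1 h0 h0' h1 h1' B ha
  have hgf := gfun_eventually ht ht1 φ
  obtain ⟨N₁, hN₁⟩ := ((hgap.and hgf).and (hclose.and (eventually_ge_atTop (max N₀ 2)))).exists_forall_of_atTop
  obtain ⟨N, hN, P, hP⟩ := exists_bezout α N₁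
  obtain ⟨⟨hgapN, hgfN⟩, hcloseN, hNmax⟩ := hN₁ N hN
  clear hN₁ hgap hgf hclose
  have hN2 : 2 ≤ N := le_trans (le_max_right _ _) hNmax
  have hN1 : 1 ≤ N := by omega
  have hm := mm_pos ht hN1
  specialize hgfN hm
  set m := mm t N with hmm
  set E := Cv m hm (th N) with hE
  have hED : E ∈ Dif := Cv_mem hm _
  set S := tS E φ N with hS
  have hSD : S ∈ Dif := Dif.tS_mem hED hφ N
  set M := Mq α.den hq with hM
  set D := Dp m hm with hD
  have hDD : D ∈ Dif := Dp_mem hm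
  set L := M⁻¹ * (D * S) * M with hL
  have hLD : L ∈ Dif := scal_mem (Dif.mul_mem hDD hSD) hq
  have hT : (R 1 : Equiv.Perm ℝ) = Cv m hm 1 := by
    have := Cv_int hm 1
    push_cast at this
    exact this.symm
  have hQ : E ^ N * (R 1)⁻¹ = Cv m hm (-ka N) := by
    rw [hE, Cv_pow, hT, Cv_inv, Cv_mul, N_th]
    congr 1
    ring
  -- combinatorial facts
  have hfix : ∀ x, x ∉ Ws m (ka N) → φ x = x := by
    intro x hx
    rw [hφx]
    have : ψ x = 0 := by
      by_contra hne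
      obtain ⟨k, hk⟩ := hψ3 x hne
      exact hx (Ws_near ht ht1 hN1 (k := k) (by linarith))
    rw [this]; ring
  have hsep := Ws_sep ht hN1
  have hTφ : R 1 * φ = φ * R 1 := by
    have := R_int_comm hφ 1
    push_cast at this
    exact this
  have hTE : R 1 * E = E * R 1 := by
    have := R_int_comm hED 1
    push_cast at this
    exact this
  have hconj : S⁻¹ * E * S = E * φ * Cv m hm (-ka N) * φ⁻¹ * (Cv m hm (-ka N))⁻¹ := by
    have := conj_formula hfix hsep hTφ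
    rw [← hE, hQ] at this
    exact this
  have hscal : ∀ v : ℝ, L⁻¹ * R (v / α.den) * L = M⁻¹ * (S⁻¹ * Cv m hm v * S) * M := by
    intro v
    rw [← Mq_R hq, ← hM, hL]
    unfold Cv
    rw [← hD]
    group
  -- the new map
  set H' := L * H with hH'
  have hH'D : H' ∈ Dif := Dif.mul_mem hLD hH
  let α' : ℚ := (α.num + 2 / (2 * N + 1)) / α.den
  have hα' : (α' : ℝ) = (α.num + th N) / α.den := by
    simp only [α', th]
    push_cast
    rfl
  have hαq : (α : ℝ) = α.num / α.den := by exact_mod_cast (Rat.num_div_den α).symm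
  have hf' : H'⁻¹ * R α' * H' = H⁻¹ * (M⁻¹ * (R α.num * (S⁻¹ * E * S)) * M) * H := by
    have e1 : H'⁻¹ * R α' * H' = H⁻¹ * (L⁻¹ * R α' * L) * H := by rw [hH']; group
    have e2 : S⁻¹ * Cv m hm (α.num + th N) * S = R α.num * (S⁻¹ * E * S) := by
      rw [← Cv_mul, Cv_int, ← mul_assoc, ← R_int_comm (Dif.inv_mem hSD), ← hE]
      group
    rw [e1, hα', hscal, e2]
  have hfx : ((H'⁻¹ * R α' * H' : Equiv.Perm ℝ) : ℝ → ℝ) =
      fun x => H⁻¹ (gfun t φ (par t N) (α.den * H x) / α.den + α) := by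
    funext x
    rw [hf', hconj]
    have e1 : (H⁻¹ * (M⁻¹ * (R α.num * (E * φ * Cv m hm (-ka N) * φ⁻¹ * (Cv m hm (-ka N))⁻¹)) * M)
        * H) x = H⁻¹ (M⁻¹ (R α.num ((E * φ * Cv m hm (-ka N) * φ⁻¹ * (Cv m hm (-ka N))⁻¹)
          (M (H x))))) := rfl
    rw [e1, hgfN, R_apply, Mq_inv_apply, Mq_apply, hαq, add_div]
  have hfpow : (H'⁻¹ * R α' * H') ^ N = R P * (H⁻¹ * (M⁻¹ * (S⁻¹ * Cv m hm (-ka N) * S) * M) * H) := by
    have e0 : (H'⁻¹ * R α' * H') ^ N = H'⁻¹ * R (N * α') * H' := by rw [conjp_pow, R_pow]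
    have e1 : (N : ℝ) * α' = P + (-ka N) / α.den := by
      rw [hα', mul_div_assoc', eq_comm]
      have hP' : (α.den : ℝ) * P - α.num * N = 1 := by exact_mod_cast hP
      have hNt := N_th N
      rw [eq_div_iff hq'.ne', add_mul, div_mul_cancel₀ _ hq'.ne']
      linear_combination hP' - hNt
    rw [e0, e1]
    calc H'⁻¹ * R (P + (-ka N) / α.den) * H'
        = (H'⁻¹ * R P) * R ((-ka N) / α.den) * H' := by rw [← R_mul]; group
      _ = (R P * H'⁻¹) * R ((-ka N) / α.den) * H' := by rw [← R_int_comm (Dif.inv_mem hH'D)]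
      _ = R P * (H⁻¹ * (L⁻¹ * R ((-ka N) / α.den) * L) * H) := by rw [hH']; group
      _ = _ := by rw [hscal]
  -- the identity along the orbit
  have hjt : ∀ y, (E ^ (N / 2)) y = cv m (jt N) y := by
    intro y
    rw [hE, Cv_pow]
    rfl
  have horb : ∀ w ∈ Ws m (ka N), ((H'⁻¹ * R α' * H') ^ N) (Ah H φ α.den t N w) =
      Bh H α.den t N w + P := by
    intro w hw
    rw [hfpow]
    have hcs := conj_small hfix hsep hTE (fun x hx => Ws_sub_one hm (ka N) hx) hw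
      (j := N / 2) (by omega) (by omega)
    rw [← hE, hQ, hjt, hjt] at hcs
    have e1 : (R P * (H⁻¹ * (M⁻¹ * (S⁻¹ * Cv m hm (-ka N) * S) * M) * H)) (Ah H φ α.den t N w) =
        R P (H⁻¹ (M⁻¹ ((S⁻¹ * Cv m hm (-ka N) * S) (M (H (Ah H φ α.den t N w)))))) := rfl
    have e2 : M (H (Ah H φ α.den t N w)) = cv m (jt N) (φ w) := by
      unfold Ah
      rw [p_apply_inv, Mq_apply]
      field_simp
      rfl
    have e3 : cv m (jt N) (Cv m hm (-ka N) w) = cv m (jt N - ka N) w := by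
      have : Cv m hm (jt N) * Cv m hm (-ka N) = Cv m hm (jt N - ka N) := by
        rw [Cv_mul]; rfl
      calc cv m (jt N) (Cv m hm (-ka N) w) = (Cv m hm (jt N) * Cv m hm (-ka N)) w := rfl
        _ = _ := by rw [this]; rfl
    rw [e1, e2, hcs, e3, R_apply, Mq_inv_apply]
    rfl
  have hFD : (H'⁻¹ * R α' * H') ^ N ∈ Dif :=
    Dif.pow_mem (Dif.mul_mem (Dif.mul_mem (Dif.inv_mem hH'D) (R_mem _)) hH'D) N
  have hderiv : ∀ w ∈ Ws m (ka N), deriv ((H'⁻¹ * R α' * H') ^ N : Equiv.Perm ℝ)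
      (Ah H φ α.den t N w) = Bd H α.den t N w / Ad H φ α.den t N w := by
    intro w hw
    have hA := Ah_hasDerivAt hH hφ α.den ht hN1 w
    have hB := (Bh_hasDerivAt hH α.den ht hN1 w).add_const (P : ℝ)
    have hF := Dif.hasDerivAt hFD (Ah H φ α.den t N w)
    have hcomp := hF.comp w hA
    have heq : (((H'⁻¹ * R α' * H') ^ N : Equiv.Perm ℝ) : ℝ → ℝ) ∘ (Ah H φ α.den t N) =ᶠ[𝓝 w]
        fun w => Bh H α.den t N w + P := by
      filter_upwards [(Ws_open hm (ka N)).mem_nhds hw] with w' hw'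
      exact horb w' hw'
    have h2 := hcomp.unique (hB.congr_of_eventuallyEq heq)
    rw [eq_div_iff (Ad_pos hH hφ hq ht hN1 w).ne']
    exact h2
  have hw0 : (1 / 8 : ℝ) ∈ Ws m (ka N) :=
    Ws_near ht ht1 hN1 (k := 0) (by simp; positivity)
  have hw1 : (1 / 8 + t / 32 : ℝ) ∈ Ws m (ka N) :=
    Ws_near ht ht1 hN1 (k := 0) (by
      push_cast
      rw [show (1 / 8 + t / 32 - 1 / 8 - 0 : ℝ) = t / 32 by ring, abs_of_pos (by positivity)])
  refine ⟨H', hH'D, α', ?_, N, le_trans (le_max_left _ _) hNmax, by omega, P, ?_, ?_,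
    Ah H φ α.den t N (1 / 8 + t / 32), Ah H φ α.den t N (1 / 8), hgapN.1, ?_⟩
  · intro j hj x
    rw [hfx]
    have e1 : ((H⁻¹ * R α * H : Equiv.Perm ℝ) : ℝ → ℝ) = fun x => H⁻¹ (H x + α) := rfl
    rw [e1]
    exact hcloseN j hj x
  · exact ⟨α.den, -α.num, by linear_combination hP⟩
  · have hNpos : (0 : ℝ) < N := by exact_mod_cast hN1
    have e1 : (α' : ℝ) - P / N = -(ka N / (α.den * N)) := by
      rw [hα']
      have hP' : (α.den : ℝ) * P - α.num * N = 1 := by exact_mod_cast hP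
      have hNt := N_th N
      rw [div_sub_div _ _ hq'.ne' hNpos.ne', ← neg_div]
      congr 1
      linear_combination -hP' + hNt
    rw [e1, abs_neg, abs_of_pos (by have := ka_pos N; positivity), ka, div_div,
      div_lt_div_iff_of_pos_left one_pos (by positivity) (by positivity)]
    have h1 : (1 : ℝ) ≤ α.den := by exact_mod_cast hq
    have h2 : (N : ℝ) ≤ α.den * N := by nlinarith
    nlinarith
  · rw [hderiv _ hw0, hderiv _ hw1]
    exact hgapN.2

end Pool.Agent.Helper68
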