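import Pool.Agent.Helper68.Dif

set_option autoImplicit false

open Set Filter Topology Real
open scoped ContDiff

namespace Pool.Agent.Helper68

/-- `(a, b)` is a positive multiple of `(cos πx, sin πx)`. -/
def Ray (x a b : ℝ) : Prop := ∃ r : ℝ, 0 < r ∧ a = r * cos (π * x) ∧ b = r * sin (π * x)

lemma Ray.unique {x y a b : ℝ} (hx : Ray x a b) (hy : Ray y a b) (hxy : |x - y| < 2) : x = y := by
  obtain ⟨r, hr, ha, hb⟩ := hx
  obtain ⟨r', hr', ha', hb'⟩ := hy
  have h1 : r ^ 2 = a ^ 2 + b ^ 2 := by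
    rw [ha, hb]
    have := sin_sq_add_cos_sq (π * x)
    calc r ^ 2 = r ^ 2 * (sin (π * x) ^ 2 + cos (π * x) ^ 2) := by rw [this, mul_one]
      _ = _ := by ring
  have h2 : r' ^ 2 = a ^ 2 + b ^ 2 := by
    rw [ha', hb']
    have := sin_sq_add_cos_sq (π * y)
    calc r' ^ 2 = r' ^ 2 * (sin (π * y) ^ 2 + cos (π * y) ^ 2) := by rw [this, mul_one]
      _ = _ := by ring
  have h3 : r = r' := by
    have h : r ^ 2 = r' ^ 2 := by rw [h1, h2]
    exact (sq_eq_sq₀ hr.le hr'.le).mp h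
  subst h3
  have hc : cos (π * x) = cos (π * y) := mul_left_cancel₀ hr.ne' (ha.symm.trans ha')
  have hs : sin (π * x) = sin (π * y) := mul_left_cancel₀ hr.ne' (hb.symm.trans hb')
  have hcos : cos (π * x - π * y) = 1 := by
    rw [cos_sub, hc, hs]
    have := sin_sq_add_cos_sq (π * y)
    nlinarith
  rw [cos_eq_one_iff] at hcos
  obtain ⟨n, hn⟩ := hcos
  have h4 : x - y = 2 * n := by
    have hpi := pi_pos
    have : π * (x - y) = π * (2 * n) := by linarith
    exact mul_left_cancel₀ hpi.ne' this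
  have h5 : |(n : ℝ)| < 1 := by
    rw [h4, abs_mul, abs_two] at hxy
    linarith
  have h6 : n = 0 := by
    have : |n| < 1 := by exact_mod_cast h5
    exact Int.abs_lt_one_iff.mp this
  rw [h6] at h4
  simp at h4
  linarith

lemma Ray.smul {x a b k : ℝ} (h : Ray x a b) (hk : 0 < k) : Ray x (k * a) (k * b) := by
  obtain ⟨r, hr, ha, hb⟩ := h
  exact ⟨k * r, by positivity, by rw [ha]; ring, by rw [hb]; ring⟩

/-- The angle of `(a, b)` measured near `y`. -/
noncomputable def ang (y a b : ℝ) : ℝ :=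
  y + (1 / π) * arctan ((b * cos (π * y) - a * sin (π * y)) / (a * cos (π * y) + b * sin (π * y)))

lemma ang_sub (y a b : ℝ) : |ang y a b - y| < 1 / 2 := by
  unfold ang
  rw [add_sub_cancel_left, abs_mul, abs_of_pos (by positivity : (0 : ℝ) < 1 / π)]
  have h1 := arctan_lt_pi_div_two ((b * cos (π * y) - a * sin (π * y)) /
    (a * cos (π * y) + b * sin (π * y)))
  have h2 := neg_pi_div_two_lt_arctan ((b * cos (π * y) - a * sin (π * y)) /
    (a * cos (π * y) + b * sin (π * y)))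
  have h3 : |arctan ((b * cos (π * y) - a * sin (π * y)) /
    (a * cos (π * y) + b * sin (π * y)))| < π / 2 := abs_lt.mpr ⟨by linarith, h1⟩
  calc 1 / π * |arctan ((b * cos (π * y) - a * sin (π * y)) /
    (a * cos (π * y) + b * sin (π * y)))| < 1 / π * (π / 2) := by gcongr
    _ = 1 / 2 := by field_simp

lemma ang_ray {y a b : ℝ} (hd : 0 < a * cos (π * y) + b * sin (π * y)) : Ray (ang y a b) a b := by
  set d := a * cos (π * y) + b * sin (π * y) with hdd
  set k := b * cos (π * y) - a * sin (π * y) with hk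
  have hcs := sin_sq_add_cos_sq (π * y)
  have hang : π * ang y a b = π * y + arctan (k / d) := by
    unfold ang
    rw [← hdd, ← hk]
    field_simp
  have hroot : 0 < √(1 + (k / d) ^ 2) := by positivity
  refine ⟨d * √(1 + (k / d) ^ 2), by positivity, ?_, ?_⟩
  · rw [hang, cos_add, cos_arctan, sin_arctan]
    have : d * √(1 + (k / d) ^ 2) * (cos (π * y) * (1 / √(1 + (k / d) ^ 2)) -
        sin (π * y) * (k / d / √(1 + (k / d) ^ 2))) = d * cos (π * y) - k * sin (π * y) := by
      field_simp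
    rw [this, hdd, hk]
    linear_combination -a * hcs
  · rw [hang, sin_add, cos_arctan, sin_arctan]
    have : d * √(1 + (k / d) ^ 2) * (sin (π * y) * (1 / √(1 + (k / d) ^ 2)) +
        cos (π * y) * (k / d / √(1 + (k / d) ^ 2))) = d * sin (π * y) + k * cos (π * y) := by
      field_simp
    rw [this, hdd, hk]
    linear_combination -b * hcs

/-- The lift of the Möbius dilation `tan (π D) = m tan (π y)`. -/
noncomputable def Dm (m y : ℝ) : ℝ := ang y (cos (π * y)) (m * sin (π * y))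

/-- The lift of the Möbius map with matrix `((c, -s m²), (s, c))`. -/
noncomputable def mob (s m c y : ℝ) : ℝ :=
  ang y (c * cos (π * y) - s * m ^ 2 * sin (π * y)) (s * cos (π * y) + c * sin (π * y))

lemma cos_add_one (y : ℝ) : cos (π * (y + 1)) = -cos (π * y) := by
  rw [mul_add, mul_one, cos_add_pi]

lemma sin_add_one (y : ℝ) : sin (π * (y + 1)) = -sin (π * y) := by
  rw [mul_add, mul_one, sin_add_pi]

lemma ang_neg_add_one (y a b : ℝ) : ang (y + 1) (-a) (-b) = ang y a b + 1 := by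
  unfold ang
  rw [cos_add_one, sin_add_one]
  have : (-b * -cos (π * y) - -a * -sin (π * y)) / (-a * -cos (π * y) + -b * -sin (π * y))
    = (b * cos (π * y) - a * sin (π * y)) / (a * cos (π * y) + b * sin (π * y)) := by
    congr 1 <;> ring
  rw [this]
  ring

lemma Dm_add_one (m y : ℝ) : Dm m (y + 1) = Dm m y + 1 := by
  unfold Dm
  rw [← ang_neg_add_one, cos_add_one, sin_add_one]
  congr 1
  ring

lemma mob_add_one (s m c y : ℝ) : mob s m c (y + 1) = mob s m c y + 1 := by
  unfold mob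
  rw [← ang_neg_add_one, cos_add_one, sin_add_one]
  congr 1 <;> ring

lemma Dm_dot {m : ℝ} (hm : 0 < m) (y : ℝ) :
    0 < cos (π * y) * cos (π * y) + m * sin (π * y) * sin (π * y) := by
  have hcs := sin_sq_add_cos_sq (π * y)
  rcases eq_or_ne (cos (π * y)) 0 with h | h
  · rw [h] at hcs ⊢
    have : sin (π * y) * sin (π * y) = 1 := by nlinarith
    rw [mul_assoc, this]
    simpa using hm
  · have h1 : 0 < cos (π * y) * cos (π * y) := mul_self_pos.mpr h
    have h2 : 0 ≤ m * sin (π * y) * sin (π * y) := by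
      rw [mul_assoc]
      exact mul_nonneg hm.le (mul_self_nonneg _)
    linarith

lemma Dm_ray {m : ℝ} (hm : 0 < m) (y : ℝ) : Ray (Dm m y) (cos (π * y)) (m * sin (π * y)) :=
  ang_ray (Dm_dot hm y)

lemma self_ray (y : ℝ) : Ray y (cos (π * y)) (sin (π * y)) := ⟨1, one_pos, by simp, by simp⟩

lemma Dm_inv {m : ℝ} (hm : 0 < m) (y : ℝ) : Dm m⁻¹ (Dm m y) = y := by
  obtain ⟨r, hr, h1, h2⟩ := Dm_ray hm y
  have h3 := Dm_ray (inv_pos.mpr hm) (Dm m y)
  have h4 := h3.smul hr
  have e1 : r * cos (π * Dm m y) = cos (π * y) := h1.symm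
  have e2 : r * (m⁻¹ * sin (π * Dm m y)) = sin (π * y) := by
    have : r * (m⁻¹ * sin (π * Dm m y)) = m⁻¹ * (r * sin (π * Dm m y)) := by ring
    rw [this, ← h2]
    field_simp
  rw [e1, e2] at h4
  refine h4.unique (self_ray y) ?_
  have b1 := ang_sub (Dm m y) (cos (π * Dm m y)) (m⁻¹ * sin (π * Dm m y))
  have b2 := ang_sub y (cos (π * y)) (m * sin (π * y))
  have b3 := abs_sub_le (Dm m⁻¹ (Dm m y)) (Dm m y) y
  unfold Dm at *
  linarith

/-- The dilation as a permutation. -/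
noncomputable def Dp (m : ℝ) (hm : 0 < m) : Equiv.Perm ℝ where
  toFun := Dm m
  invFun := Dm m⁻¹
  left_inv := Dm_inv hm
  right_inv := fun y => by
    have := Dm_inv (inv_pos.mpr hm) y
    rwa [inv_inv] at this

lemma Dp_apply {m : ℝ} (hm : 0 < m) (y : ℝ) : Dp m hm y = Dm m y := rfl

lemma Dp_inv_apply {m : ℝ} (hm : 0 < m) (y : ℝ) : (Dp m hm)⁻¹ y = Dm m⁻¹ y := rfl

lemma mob_ray {s m c y : ℝ} (hd : 0 < c + s * (1 - m ^ 2) * (sin (π * y) * cos (π * y))) :
    Ray (mob s m c y) (c * cos (π * y) - s * m ^ 2 * sin (π * y))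
      (s * cos (π * y) + c * sin (π * y)) := by
  apply ang_ray
  have hcs := sin_sq_add_cos_sq (π * y)
  have : (c * cos (π * y) - s * m ^ 2 * sin (π * y)) * cos (π * y) +
      (s * cos (π * y) + c * sin (π * y)) * sin (π * y)
      = c + s * (1 - m ^ 2) * (sin (π * y) * cos (π * y)) := by
    linear_combination c * hcs
  rw [this]
  exact hd

/-- Conjugating a translation by the dilation gives a Möbius map. -/
lemma Dm_mob {m v y : ℝ} (hm : 0 < m) (hv : |v| < 1 / 2)
    (hd : 0 < cos (π * v) + sin (π * v) / m * (1 - m ^ 2) * (sin (π * y) * cos (π * y))) :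
    Dm m (mob (sin (π * v) / m) m (cos (π * v)) y) = Dm m y + v := by
  set z := mob (sin (π * v) / m) m (cos (π * v)) y with hz
  obtain ⟨r, hr, h1, h2⟩ := mob_ray hd
  rw [← hz] at h1 h2
  obtain ⟨r', hr', h3, h4⟩ := Dm_ray hm y
  have h5 := (Dm_ray hm z).smul hr
  have e1 : r * cos (π * z) = cos (π * v) * cos (π * y) - sin (π * v) * (m * sin (π * y)) := by
    rw [← h1]
    field_simp
  have e2 : r * (m * sin (π * z)) = sin (π * v) * cos (π * y) + cos (π * v) * (m * sin (π * y)) := by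
    rw [show r * (m * sin (π * z)) = m * (r * sin (π * z)) by ring, ← h2]
    field_simp
  rw [e1, e2, h3, h4] at h5
  have h6 : Ray (Dm m y + v) (cos (π * v) * (r' * cos (π * Dm m y)) -
      sin (π * v) * (r' * sin (π * Dm m y))) (sin (π * v) * (r' * cos (π * Dm m y)) +
      cos (π * v) * (r' * sin (π * Dm m y))) := by
    refine ⟨r', hr', ?_, ?_⟩
    · rw [mul_add, cos_add]; ring
    · rw [mul_add, sin_add]; ring
  refine h5.unique h6 ?_
  have b1 := ang_sub z (cos (π * z)) (m * sin (π * z))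
  have b2 := ang_sub y (cos (π * y)) (m * sin (π * y))
  have b3 := ang_sub y (cos (π * v) * cos (π * y) - sin (π * v) / m * m ^ 2 * sin (π * y))
    (sin (π * v) / m * cos (π * y) + cos (π * v) * sin (π * y))
  have b1' : |Dm m z - z| < 1 / 2 := b1
  have b2' : |Dm m y - y| < 1 / 2 := b2
  have b3' : |z - y| < 1 / 2 := b3
  rw [abs_lt] at *
  constructor <;> linarith

lemma mob_parabolic {s y : ℝ} (hs : |s| ≤ 1) : mob s 0 1 (mob (-s) 0 1 y) = y := by
  have hhalf : ∀ y : ℝ, |sin (π * y) * cos (π * y)| ≤ 1 / 2 := by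
    intro y
    have h1 := sin_sq_add_cos_sq (π * y)
    rw [abs_le]
    constructor <;> nlinarith [sq_nonneg (sin (π * y) + cos (π * y)),
      sq_nonneg (sin (π * y) - cos (π * y))]
  have hdot : ∀ (s y : ℝ), |s| ≤ 1 → 0 < 1 + s * (1 - (0 : ℝ) ^ 2) * (sin (π * y) * cos (π * y)) := by
    intro s y hs
    have h1 := hhalf y
    have h2 : |s * (sin (π * y) * cos (π * y))| ≤ 1 * (1 / 2) := by
      rw [abs_mul]; gcongr
    have h3 := (abs_le.mp h2).1
    have : s * (1 - (0 : ℝ) ^ 2) * (sin (π * y) * cos (π * y)) = s * (sin (π * y) * cos (π * y)) := by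
      ring
    rw [this]
    linarith
  obtain ⟨r, hr, h1, h2⟩ := mob_ray (m := 0) (hdot (-s) y (by rwa [abs_neg]))
  set z := mob (-s) 0 1 y with hz
  have h3 := (mob_ray (m := 0) (hdot s z hs)).smul hr
  have e1 : r * (1 * cos (π * z) - s * 0 ^ 2 * sin (π * z)) = cos (π * y) := by
    have : r * (1 * cos (π * z) - s * 0 ^ 2 * sin (π * z)) = r * cos (π * z) := by ring
    rw [this, ← h1]
    ring
  have e2 : r * (s * cos (π * z) + 1 * sin (π * z)) = sin (π * y) := by
    have : r * (s * cos (π * z) + 1 * sin (π * z)) = s * (r * cos (π * z)) + r * sin (π * z) := by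
      ring
    rw [this, ← h1, ← h2]
    ring
  rw [e1, e2] at h3
  refine h3.unique (self_ray y) ?_
  have b1 := ang_sub z (1 * cos (π * z) - s * 0 ^ 2 * sin (π * z))
    (s * cos (π * z) + 1 * sin (π * z))
  have b2 := ang_sub y (1 * cos (π * y) - (-s) * 0 ^ 2 * sin (π * y))
    ((-s) * cos (π * y) + 1 * sin (π * y))
  have b1' : |mob s 0 1 z - z| < 1 / 2 := b1
  have b2' : |z - y| < 1 / 2 := b2
  rw [abs_lt] at *
  constructor <;> linarith

lemma mob_zero {m c y : ℝ} (hc : 0 < c) : mob 0 m c y = y := by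
  have hd : 0 < c + 0 * (1 - m ^ 2) * (sin (π * y) * cos (π * y)) := by simpa using hc
  have h1 := mob_ray hd
  have h2 := (self_ray y).smul hc
  have e1 : c * cos (π * y) - 0 * m ^ 2 * sin (π * y) = c * cos (π * y) := by ring
  have e2 : 0 * cos (π * y) + c * sin (π * y) = c * sin (π * y) := by ring
  rw [e1, e2] at h1
  refine h1.unique h2 ?_
  have b1 : |mob 0 m c y - y| < 1 / 2 := ang_sub _ _ _
  linarith

/-! ### Smoothness -/

section Smooth

variable {E : Type} [NormedAddCommGroup E] [NormedSpace ℝ E]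

lemma contDiffAt_ang {f a b : E → ℝ} {z : E} (hf : ContDiffAt ℝ ∞ f z)
    (ha : ContDiffAt ℝ ∞ a z) (hb : ContDiffAt ℝ ∞ b z)
    (hd : a z * cos (π * f z) + b z * sin (π * f z) ≠ 0) :
    ContDiffAt ℝ ∞ (fun z => ang (f z) (a z) (b z)) z := by
  unfold ang
  have h1 : ContDiffAt ℝ ∞ (fun z => π * f z) z := contDiffAt_const.mul hf
  have hc : ContDiffAt ℝ ∞ (fun z => cos (π * f z)) z := h1.cos
  have hs : ContDiffAt ℝ ∞ (fun z => sin (π * f z)) z := h1.sin
  exact hf.add (contDiffAt_const.mul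
    ((((hb.mul hc).sub (ha.mul hs)).div ((ha.mul hc).add (hb.mul hs)) hd).arctan))

lemma contDiffAt_mob {s m c f : E → ℝ} {z : E} (hs : ContDiffAt ℝ ∞ s z)
    (hm : ContDiffAt ℝ ∞ m z) (hc : ContDiffAt ℝ ∞ c z) (hf : ContDiffAt ℝ ∞ f z)
    (hd : c z + s z * (1 - m z ^ 2) * (sin (π * f z) * cos (π * f z)) ≠ 0) :
    ContDiffAt ℝ ∞ (fun z => mob (s z) (m z) (c z) (f z)) z := by
  unfold mob
  have h1 : ContDiffAt ℝ ∞ (fun z => π * f z) z := contDiffAt_const.mul hf
  have hco : ContDiffAt ℝ ∞ (fun z => cos (π * f z)) z := h1.cos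
  have hsi : ContDiffAt ℝ ∞ (fun z => sin (π * f z)) z := h1.sin
  apply contDiffAt_ang hf
  · exact (hc.mul hco).sub ((hs.mul (hm.pow 2)).mul hsi)
  · exact (hs.mul hco).add (hc.mul hsi)
  · have hcs := sin_sq_add_cos_sq (π * f z)
    have : (c z * cos (π * f z) - s z * m z ^ 2 * sin (π * f z)) * cos (π * f z) +
      (s z * cos (π * f z) + c z * sin (π * f z)) * sin (π * f z)
      = c z + s z * (1 - m z ^ 2) * (sin (π * f z) * cos (π * f z)) := by
      linear_combination c z * hcs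
    rw [this]
    exact hd

lemma contDiffAt_Dm {m f : E → ℝ} {z : E}
    (hm : ContDiffAt ℝ ∞ m z) (hf : ContDiffAt ℝ ∞ f z)
    (hd : cos (π * f z) * cos (π * f z) + m z * sin (π * f z) * sin (π * f z) ≠ 0) :
    ContDiffAt ℝ ∞ (fun z => Dm (m z) (f z)) z := by
  unfold Dm
  have h1 : ContDiffAt ℝ ∞ (fun z => π * f z) z := contDiffAt_const.mul hf
  have hco : ContDiffAt ℝ ∞ (fun z => cos (π * f z)) z := h1.cos
  have hsi : ContDiffAt ℝ ∞ (fun z => sin (π * f z)) z := h1.sin
  exact contDiffAt_ang hf hco (hm.mul hsi) hd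

end Smooth

lemma Dm_contDiff {m : ℝ} (hm : 0 < m) : ContDiff ℝ ∞ (Dm m) := by
  rw [contDiff_iff_contDiffAt]
  intro x
  exact contDiffAt_Dm contDiffAt_const contDiffAt_id (Dm_dot hm x).ne'

lemma Dm_denom {m : ℝ} (hm : 0 < m) (y : ℝ) : 0 < cos (π * y) ^ 2 + m ^ 2 * sin (π * y) ^ 2 := by
  have hcs := sin_sq_add_cos_sq (π * y)
  rcases eq_or_ne (cos (π * y)) 0 with h | h
  · rw [h] at hcs ⊢
    have : sin (π * y) ^ 2 = 1 := by nlinarith
    rw [this]
    positivity
  · positivity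

lemma Dm_hasDerivAt {m : ℝ} (hm : 0 < m) (y : ℝ) :
    HasDerivAt (Dm m) (m / (cos (π * y) ^ 2 + m ^ 2 * sin (π * y) ^ 2)) y := by
  have hcs := sin_sq_add_cos_sq (π * y)
  have h0 : HasDerivAt (fun y => π * y) π y := by
    simpa using (hasDerivAt_id y).const_mul π
  have hc : HasDerivAt (fun y => cos (π * y)) (-sin (π * y) * π) y := h0.cos
  have hs : HasDerivAt (fun y => sin (π * y)) (cos (π * y) * π) y := h0.sin
  have hd := (Dm_dot hm y)
  have hn : HasDerivAt (fun y => (m * sin (π * y)) * cos (π * y) - cos (π * y) * sin (π * y))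
      ((m * (cos (π * y) * π)) * cos (π * y) + (m * sin (π * y)) * (-sin (π * y) * π) -
        ((-sin (π * y) * π) * sin (π * y) + cos (π * y) * (cos (π * y) * π))) y :=
    ((hs.const_mul m).mul hc).sub (hc.mul hs)
  have hdd : HasDerivAt (fun y => cos (π * y) * cos (π * y) + (m * sin (π * y)) * sin (π * y))
      ((-sin (π * y) * π) * cos (π * y) + cos (π * y) * (-sin (π * y) * π) +
        ((m * (cos (π * y) * π)) * sin (π * y) + (m * sin (π * y)) * (cos (π * y) * π))) y :=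
    (hc.mul hc).add ((hs.const_mul m).mul hs)
  have hq := ((hn.div hdd hd.ne').arctan.const_mul (1 / π)).add (hasDerivAt_id y)
  have hfun : Dm m = fun y => (1 / π) * arctan (((m * sin (π * y)) * cos (π * y) -
      cos (π * y) * sin (π * y)) / (cos (π * y) * cos (π * y) + (m * sin (π * y)) * sin (π * y))) +
      id y := by
    funext y
    unfold Dm ang
    rw [add_comm]
    rfl
  rw [hfun]
  refine hq.congr_deriv ?_
  have hden := Dm_denom hm y
  have hpi := pi_pos
  simp only [Pi.div_apply]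
  set C := cos (π * y) with hC
  set S := sin (π * y) with hS
  have hd' : 0 < C * C + m * S * S := hd
  have hsum : (C * C + m * S * S) ^ 2 + (m * S * C - C * S) ^ 2 = C ^ 2 + m ^ 2 * S ^ 2 := by
    have : (C * C + m * S * S) ^ 2 + (m * S * C - C * S) ^ 2
      = (C ^ 2 + m ^ 2 * S ^ 2) * (S ^ 2 + C ^ 2) := by ring
    rw [this, hcs, mul_one]
  have hcs' : S ^ 2 + C ^ 2 = 1 := hcs
  have hd2 : (C * C + m * S * S) ^ 2 ≠ 0 := by positivity
  have hne : 1 + ((m * S * C - C * S) / (C * C + m * S * S)) ^ 2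
      = (C ^ 2 + m ^ 2 * S ^ 2) / (C * C + m * S * S) ^ 2 := by
    rw [eq_div_iff hd2, ← hsum, div_pow, add_mul, div_mul_cancel₀ _ hd2, one_mul]
  have hden' : C ^ 2 + m ^ 2 * S ^ 2 ≠ 0 := hden.ne'
  have hnum : (m * (C * π) * C + m * S * (-S * π) - (-S * π * S + C * (C * π))) *
      (C * C + m * S * S) - (m * S * C - C * S) *
      (-S * π * C + C * (-S * π) + (m * (C * π) * S + m * S * (C * π)))
      = π * (m - C ^ 2 - m ^ 2 * S ^ 2) := by
    linear_combination (π * m * (S ^ 2 + C ^ 2 + 1) - m ^ 2 * π * S ^ 2 - C ^ 2 * π) * hcs'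
  rw [hnum, hne]
  generalize hX : C ^ 2 + m ^ 2 * S ^ 2 = X at *
  generalize C * C + m * S * S = D at *
  have hD : D ≠ 0 := fun h => hd2 (by rw [h]; ring)
  have hX' : m - C ^ 2 - m ^ 2 * S ^ 2 = m - X := by rw [← hX]; ring
  rw [hX']
  field_simp
  ring

lemma Dm_deriv {m : ℝ} (hm : 0 < m) (y : ℝ) :
    deriv (Dm m) y = m / (cos (π * y) ^ 2 + m ^ 2 * sin (π * y) ^ 2) := (Dm_hasDerivAt hm y).deriv

lemma Dm_deriv_pos {m : ℝ} (hm : 0 < m) (y : ℝ) : 0 < deriv (Dm m) y := by
  rw [Dm_deriv hm]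
  exact div_pos hm (Dm_denom hm y)

lemma Dp_mem {m : ℝ} (hm : 0 < m) : Dp m hm ∈ Dif := by
  refine ⟨Dm_contDiff hm, Dm_contDiff (inv_pos.mpr hm), strictMono_of_deriv_pos (Dm_deriv_pos hm),
    Dm_add_one m⟩

end Pool.Agent.Helper68
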