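import Pool.Agent.Helper68.Levels

set_option autoImplicit false

open Set Filter Topology Real
open scoped ContDiff

namespace Pool.Agent.Helper68

/-- The conjugated translation. -/
noncomputable def Cv (m : ℝ) (hm : 0 < m) (v : ℝ) : Equiv.Perm ℝ := (Dp m hm)⁻¹ * R v * Dp m hm

/-- The conjugated translation, as a function. -/
noncomputable def cv (m v y : ℝ) : ℝ := Dm m⁻¹ (Dm m y + v)

section

variable {m : ℝ} (hm : 0 < m)

lemma Cv_apply (v y : ℝ) : Cv m hm v y = cv m v y := rfl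

lemma Cv_mem (v : ℝ) : Cv m hm v ∈ Dif :=
  Dif.mul_mem (Dif.mul_mem (Dif.inv_mem (Dp_mem hm)) (R_mem v)) (Dp_mem hm)

lemma Cv_pow (v : ℝ) (n : ℕ) : Cv m hm v ^ n = Cv m hm (n * v) := by
  unfold Cv
  rw [conjp_pow, R_pow]

lemma Cv_zpow (v : ℝ) (n : ℤ) : Cv m hm v ^ n = Cv m hm (n * v) := by
  unfold Cv
  rw [conjp_zpow, R_zpow]

lemma Cv_mul (v w : ℝ) : Cv m hm v * Cv m hm w = Cv m hm (v + w) := by
  unfold Cv
  rw [← R_mul]
  group

lemma Cv_inv (v : ℝ) : (Cv m hm v)⁻¹ = Cv m hm (-v) := by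
  unfold Cv
  rw [← R_inv]
  group

lemma Cv_int (n : ℤ) : Cv m hm n = R n := by
  unfold Cv
  rw [mul_assoc, R_int_comm (Dp_mem hm)]
  group

include hm

lemma Dm_cv (v y : ℝ) : Dm m (cv m v y) = Dm m y + v := by
  unfold cv
  have := Dm_inv (inv_pos.mpr hm) (Dm m y + v)
  rwa [inv_inv] at this

lemma cv_mob {v y : ℝ} (hv : |v| < 1 / 2)
    (hd : 0 < cos (π * v) + sin (π * v) / m * (1 - m ^ 2) * (sin (π * y) * cos (π * y))) :
    cv m v y = mob (sin (π * v) / m) m (cos (π * v)) y := by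
  have h1 := Dm_mob hm hv hd
  unfold cv
  rw [← h1]
  exact Dm_inv hm _

end

lemma dot_pos {m c s : ℝ} (hm : 0 < m) (hm1 : m ≤ 1) (hc : 3 / 4 < c) (hs : |s| ≤ 1) (y : ℝ) :
    0 < c + s * (1 - m ^ 2) * (sin (π * y) * cos (π * y)) := by
  have h1 := half_sin_cos y
  have h2 : |1 - m ^ 2| ≤ 1 := by
    rw [abs_le]
    constructor <;> nlinarith
  have h3 : |s * (1 - m ^ 2) * (sin (π * y) * cos (π * y))| ≤ 1 * 1 * (1 / 2) := by
    rw [abs_mul, abs_mul]; gcongr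
  have h4 := (abs_le.mp h3).1
  linarith

lemma gfun_eventually {t : ℝ} (ht : 0 < t) (ht1 : t ≤ 1) (φ : Equiv.Perm ℝ) :
    ∀ᶠ N in atTop, ∀ hm : 0 < mm t N, ∀ y,
      (Cv (mm t N) hm (th N) * φ * Cv (mm t N) hm (-ka N) * φ⁻¹ * (Cv (mm t N) hm (-ka N))⁻¹) y =
        gfun t φ (par t N) y := by
  have hpar := par_tendsto ht
  have p1 : Tendsto (fun N => (par t N).1) atTop (𝓝 0) := (continuous_fst.tendsto _).comp hpar
  have hp2 := (continuous_snd.tendsto _).comp hpar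
  have p2 : Tendsto (fun N => (par t N).2.1) atTop (𝓝 1) := (continuous_fst.tendsto _).comp hp2
  have hp3 := (continuous_snd.tendsto _).comp hp2
  have p3 : Tendsto (fun N => (par t N).2.2.1) atTop (𝓝 (t / 2)) :=
    (continuous_fst.tendsto _).comp hp3
  have p4 : Tendsto (fun N => (par t N).2.2.2) atTop (𝓝 1) := (continuous_snd.tendsto _).comp hp3
  have q1 := p1.eventually (gt_mem_nhds zero_lt_one)
  have q2 := p2.eventually (lt_mem_nhds (show (3 / 4 : ℝ) < 1 by norm_num))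
  have q3 := p3.abs.eventually (gt_mem_nhds (show |t / 2| < 1 by
    rw [abs_of_pos (by linarith)]; linarith))
  have q4 := p4.eventually (lt_mem_nhds (show (3 / 4 : ℝ) < 1 by norm_num))
  have q5 := th_tendsto.eventually (gt_mem_nhds (show (0 : ℝ) < 1 / 2 by norm_num))
  filter_upwards [q1, q2, q3, q4, q5, eventually_ge_atTop 1] with N q1 q2 q3 q4 q5 hN hm y
  have hth : 0 < th N := by rw [th_eq]; have := ka_pos N; positivity
  have hka : ka N < 1 / 2 := ka_lt_half hN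
  have hka0 := ka_pos N
  have hm1 : mm t N ≤ 1 := q1.le
  have c2 : 3 / 4 < cos (π * th N) := q2
  have c3 : |sin (π * ka N) / mm t N| ≤ 1 := q3.le
  have c4 : 3 / 4 < cos (π * ka N) := q4
  have hsin : sin (π * th N) ≠ 0 := by
    have := mm_pos ht hN
    unfold mm at this
    intro h
    rw [h, zero_div] at this
    exact lt_irrefl _ this
  have hst : sin (π * th N) / mm t N = t := by
    unfold mm
    field_simp
  have hneg : sin (π * -ka N) / mm t N = -(sin (π * ka N) / mm t N) := by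
    rw [mul_neg, sin_neg, neg_div]
  have hcneg : cos (π * -ka N) = cos (π * ka N) := by
    rw [mul_neg, cos_neg]
  have e1 : ∀ y, Cv (mm t N) hm (th N) y = mob t (mm t N) (cos (π * th N)) y := by
    intro y
    rw [Cv_apply, cv_mob hm (by rw [abs_of_pos hth]; exact q5), hst]
    rw [hst]
    exact dot_pos hm hm1 c2 (by rw [abs_of_pos ht]; exact ht1) y
  have e2 : ∀ y, Cv (mm t N) hm (-ka N) y =
      mob (-(sin (π * ka N) / mm t N)) (mm t N) (cos (π * ka N)) y := by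
    intro y
    rw [Cv_apply, cv_mob hm (by rw [abs_neg, abs_of_pos hka0]; exact hka), hneg, hcneg]
    rw [hneg, hcneg]
    exact dot_pos hm hm1 c4 (by rw [abs_neg]; exact c3) y
  have e3 : ∀ y, (Cv (mm t N) hm (-ka N))⁻¹ y =
      mob (sin (π * ka N) / mm t N) (mm t N) (cos (π * ka N)) y := by
    intro y
    rw [Cv_inv, neg_neg, Cv_apply, cv_mob hm (by rw [abs_of_pos hka0]; exact hka)]
    exact dot_pos hm hm1 c4 c3 y
  rw [Equiv.Perm.mul_apply, Equiv.Perm.mul_apply, Equiv.Perm.mul_apply, Equiv.Perm.mul_apply,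
    e3, e2, e1]
  rfl

/-! ### The separated set -/

/-- The fundamental region. -/
def Ws (m κ : ℝ) : Set ℝ := {x | ∃ k : ℤ, |Dm m x - Dm m (1 / 8) - k| < κ / 2}

lemma Ws_open {m : ℝ} (hm : 0 < m) (κ : ℝ) : IsOpen (Ws m κ) := by
  have : Ws m κ = ⋃ k : ℤ, {x | |Dm m x - Dm m (1 / 8) - k| < κ / 2} := by
    ext x
    simp [Ws]
  rw [this]
  refine isOpen_iUnion fun k => isOpen_lt ?_ continuous_const
  have := (Dm_contDiff hm).continuous
  fun_prop

lemma Dm_sub_int {m : ℝ} (hm : 0 < m) (x : ℝ) (k : ℤ) : Dm m (x - k) = Dm m x - k := by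
  have := Dif.add_int (Dp_mem hm) (x - k) k
  rw [sub_add_cancel, Dp_apply, Dp_apply] at this
  linarith

lemma Ws_sub_one {m : ℝ} (hm : 0 < m) (κ : ℝ) {x : ℝ} (hx : x ∈ Ws m κ) : (R 1)⁻¹ x ∈ Ws m κ := by
  obtain ⟨k, hk⟩ := hx
  refine ⟨k - 1, ?_⟩
  rw [R_inv, R_apply]
  have := Dm_sub_int hm x 1
  push_cast at this ⊢
  rw [← sub_eq_add_neg, this]
  convert hk using 2
  ring

lemma Ws_near {t : ℝ} (ht : 0 < t) (ht1 : t ≤ 1) {N : ℕ} (hN : 1 ≤ N) {x : ℝ} {k : ℤ}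
    (hx : |x - 1 / 8 - k| ≤ t / 32) : x ∈ Ws (mm t N) (ka N) := by
  have hm := mm_pos ht hN
  set m := mm t N with hmm
  refine ⟨k, ?_⟩
  have h1 : Dm m x - Dm m (1 / 8) - k = Dm m (x - k) - Dm m (1 / 8) := by
    rw [Dm_sub_int hm]; ring
  rw [h1]
  have hu : |(x - k) - 1 / 8| ≤ t / 32 := by
    rw [show x - k - 1 / 8 = x - 1 / 8 - k by ring]; exact hx
  generalize x - k = u at hu ⊢
  have hu' := abs_le.mp hu
  have hbound : ∀ y ∈ Icc (0 : ℝ) (1 / 4), ‖deriv (Dm m) y‖ ≤ 2 * m := by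
    intro y hy
    rw [norm_of_nonneg (Dm_deriv_pos hm y).le, Dm_deriv hm, div_le_iff₀ (Dm_denom hm y)]
    have hc : 1 / 2 ≤ cos (π * y) ^ 2 := by
      rw [cos_sq]
      have : 0 ≤ cos (2 * (π * y)) := by
        apply cos_nonneg_of_mem_Icc
        constructor <;> nlinarith [pi_pos, hy.1, hy.2]
      linarith
    have h2 : 0 ≤ m ^ 2 * sin (π * y) ^ 2 := by positivity
    nlinarith
  have h3 := (convex_Icc (0 : ℝ) (1 / 4)).norm_image_sub_le_of_norm_deriv_le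
    (f := Dm m) (C := 2 * m) (x := 1 / 8) (y := u)
    (fun y _ => (Dm_hasDerivAt hm y).differentiableAt) hbound
    ⟨by norm_num, by norm_num⟩ ⟨by linarith, by linarith⟩
  have h4 : 2 * m * |u - 1 / 8| ≤ 2 * m * (t / 32) := by gcongr
  have h5 : m * t = sin (π * th N) := by
    rw [hmm]; unfold mm; field_simp
  have h6 : sin (π * th N) ≤ π * th N := sin_le (by rw [th_eq]; have := ka_pos N; positivity)
  rw [th_eq] at h5 h6
  have h7 := ka_pos N
  have h8 : π < 4 := pi_lt_four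
  rw [norm_eq_abs, norm_eq_abs] at h3
  nlinarith

lemma Ws_sep {t : ℝ} (ht : 0 < t) {N : ℕ} (hN : 1 ≤ N) :
    ∀ x ∈ Ws (mm t N) (ka N), ∀ l : ℤ, l ≠ 0 → |l| ≤ 2 * N →
      (Cv (mm t N) (mm_pos ht hN) (th N) ^ l) x ∉ Ws (mm t N) (ka N) := by
  rintro x ⟨k, hk⟩ l hl hl' ⟨k', hk'⟩
  rw [Cv_zpow, Cv_apply, Dm_cv (mm_pos ht hN)] at hk'
  have h1 : |(l : ℝ) * th N - ((k' - k : ℤ) : ℝ)| < ka N := by
    rw [abs_lt] at *
    push_cast
    constructor <;> linarith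
  have h2 : ka N * (2 * N + 1) = 1 := by
    unfold ka
    have := den_pos N
    field_simp
  have h3 : |((2 * l - (k' - k) * (2 * N + 1) : ℤ) : ℝ)| < 1 := by
    have h4 : ((2 * l - (k' - k) * (2 * N + 1) : ℤ) : ℝ) =
        ((l : ℝ) * th N - ((k' - k : ℤ) : ℝ)) * (2 * N + 1) := by
      rw [th_eq]
      push_cast
      linear_combination (-2 * (l : ℝ)) * h2
    rw [h4, abs_mul, abs_of_pos (den_pos N)]
    calc _ < ka N * (2 * N + 1) := by
          have := den_pos N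
          gcongr
      _ = 1 := h2
  have h4 : 2 * l - (k' - k) * (2 * N + 1) = 0 := by
    have : |2 * l - (k' - k) * (2 * N + 1)| < 1 := by exact_mod_cast h3
    exact Int.abs_lt_one_iff.mp this
  have h5 : (2 * (N : ℤ) + 1) ∣ 2 * l := ⟨k' - k, by linarith⟩
  have h6 : IsCoprime (2 * (N : ℤ) + 1) 2 := ⟨1, -N, by ring⟩
  have h7 : (2 * (N : ℤ) + 1) ∣ l := h6.dvd_of_dvd_mul_left h5
  have h8 := Int.le_of_dvd (abs_pos.mpr hl) ((dvd_abs _ _).mpr h7)
  omega

end Pool.Agent.Helper68
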