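import Pool.Agent.Helper68.Lim

set_option autoImplicit false

open Set Filter Topology Real
open scoped ContDiff

namespace Pool.Agent.Helper68

lemma exists_bump {t : ℝ} (ht : 0 < t) : ∃ ψ : ℝ → ℝ, ContDiff ℝ ∞ ψ ∧ (∀ x, ψ (x + 1) = ψ x) ∧
    (∀ x, ψ x ≠ 0 → ∃ k : ℤ, |x - 1 / 8 - k| < t / 64) ∧ (∀ᶠ x in 𝓝 (1 / 8 : ℝ), ψ x = 1) := by
  have hK : 0 < 2048 / t ^ 2 := by positivity
  have hin : ContDiff ℝ ∞ (fun x : ℝ => 2 - 2048 / t ^ 2 * sin (π * (x - 1 / 8)) ^ 2) := by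
    fun_prop
  refine ⟨fun x => smoothTransition (2 - 2048 / t ^ 2 * sin (π * (x - 1 / 8)) ^ 2), ?_, ?_, ?_, ?_⟩
  · exact (smoothTransition.contDiff (n := (⊤ : ℕ∞))).comp hin
  · intro x
    simp only
    congr 3
    rw [show π * (x + 1 - 1 / 8) = π * (x - 1 / 8) + π by ring, sin_add_pi]
    ring
  · intro x hx
    rw [ne_eq, smoothTransition.zero_iff_nonpos, not_le] at hx
    refine ⟨round (x - 1 / 8), ?_⟩
    set u := x - 1 / 8 - round (x - 1 / 8) with hu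
    have hu2 : |u| ≤ 1 / 2 := abs_sub_round _
    have h1 : sin (π * (x - 1 / 8)) ^ 2 = sin (π * |u|) ^ 2 := by
      have h2 : x - 1 / 8 = u + round (x - 1 / 8) := by rw [hu]; ring
      rw [h2, mul_add, mul_comm π ((round (x - 1 / 8) : ℤ) : ℝ), sin_add_int_mul_pi]
      rcases abs_choice u with h | h
      · rw [h, mul_pow, ← zpow_natCast, ← zpow_mul, mul_comm _ ((2 : ℕ) : ℤ), zpow_mul]
        simp
      · rw [h, mul_pow, ← zpow_natCast, ← zpow_mul, mul_comm _ ((2 : ℕ) : ℤ), zpow_mul]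
        simp
    have h3 : 2 * |u| ≤ sin (π * |u|) := by
      have h := mul_le_sin (x := π * |u|) (by positivity) (by nlinarith [pi_pos])
      have e : 2 / π * (π * |u|) = 2 * |u| := by field_simp
      rwa [e] at h
    have h4 : 2048 / t ^ 2 * (2 * |u|) ^ 2 < 2 := by
      have h5 : (2 * |u|) ^ 2 ≤ sin (π * |u|) ^ 2 := by
        apply pow_le_pow_left₀ (by positivity) h3
      rw [h1] at hx
      have := mul_le_mul_of_nonneg_left h5 hK.le
      linarith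
    have h5 : |u| ^ 2 < (t / 64) ^ 2 := by
      rw [div_mul_eq_mul_div, div_lt_iff₀ (by positivity)] at h4
      nlinarith
    exact lt_of_pow_lt_pow_left₀ 2 (by positivity) h5
  · have h1 : ContinuousAt (fun x : ℝ => 2 - 2048 / t ^ 2 * sin (π * (x - 1 / 8)) ^ 2) (1 / 8) :=
      hin.continuous.continuousAt
    have h2 : (1 : ℝ) < 2 - 2048 / t ^ 2 * sin (π * ((1 / 8 : ℝ) - 1 / 8)) ^ 2 := by
      simp
    filter_upwards [h1.eventually (lt_mem_nhds h2)] with x hx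
    exact smoothTransition.one_of_one_le hx.le

lemma periodic_bound {g : ℝ → ℝ} (hc : Continuous g) (hp : ∀ x, g (x + 1) = g x) :
    ∃ C, ∀ x, |g x| ≤ C := by
  obtain ⟨C, hC⟩ := isCompact_Icc.exists_bound_of_continuousOn (s := Icc (0 : ℝ) 1)
    (f := g) hc.continuousOn
  refine ⟨C, fun x => ?_⟩
  have hP : Function.Periodic g 1 := hp
  have hfr := hP.sub_zsmul_eq (x := x) ⌊x⌋
  have hx : x - ⌊x⌋ • (1 : ℝ) = Int.fract x := by
    rw [zsmul_one]; rfl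
  rw [hx] at hfr
  rw [← hfr]
  exact hC _ ⟨Int.fract_nonneg x, (Int.fract_lt_one x).le⟩

lemma deriv_periodic {g : ℝ → ℝ} {c : ℝ} (hp : ∀ x, g (x + 1) = g x + c) (x : ℝ) :
    deriv g (x + 1) = deriv g x := by
  have h1 : deriv (fun x => g (x + 1)) x = deriv g (x + 1) := deriv_comp_add_const g 1 x
  rw [← h1]
  have h2 : (fun x => g (x + 1)) = fun x => g x + c := by
    funext y; exact hp y
  rw [h2, deriv_add_const]

lemma exists_twist {ψ : ℝ → ℝ} (hψ : ContDiff ℝ ∞ ψ) (hp : ∀ x, ψ (x + 1) = ψ x) :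
    ∃ e : ℝ → Equiv.Perm ℝ, (∀ᶠ a in 𝓝 (0 : ℝ), e a ∈ Dif ∧ ∀ x, e a x = x + a * ψ x) ∧
      ∀ y, ContDiffAt ℝ ∞ (fun z : ℝ × ℝ => (e z.1)⁻¹ z.2) (0, y) := by
  have hdc : Continuous (deriv ψ) := hψ.continuous_deriv (by simp)
  obtain ⟨C, hC⟩ := periodic_bound hdc (deriv_periodic (c := 0) (by simpa using hp))
  have hC0 : 0 ≤ C := (abs_nonneg _).trans (hC 0)
  have hev : ∀ᶠ a in 𝓝 (0 : ℝ), |a| * C < 1 := by
    have h1 : ContinuousAt (fun a : ℝ => |a| * C) 0 := by fun_prop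
    exact h1.eventually (gt_mem_nhds (by simp))
  have hex : ∀ a : ℝ, ∃ e : Equiv.Perm ℝ, |a| * C < 1 → e ∈ Dif ∧ ∀ x, e x = x + a * ψ x := by
    intro a
    by_cases ha : |a| * C < 1
    · have hF : ContDiff ℝ ∞ (fun x => x + a * ψ x) := by fun_prop
      have hd : ∀ x, HasDerivAt (fun x => x + a * ψ x) (1 + a * deriv ψ x) x := fun x =>
        (hasDerivAt_id x).add (((hψ.differentiable (by simp)).differentiableAt.hasDerivAt).const_mul a)
      obtain ⟨e, he, he'⟩ := mkDif hF (fun x => by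
        rw [(hd x).deriv]
        have h1 : |a * deriv ψ x| ≤ |a| * C := by
          rw [abs_mul]
          exact mul_le_mul_of_nonneg_left (hC x) (abs_nonneg a)
        have := (abs_le.mp h1).1
        linarith) (fun x => by rw [hp]; ring)
      exact ⟨e, fun _ => ⟨he, fun x => by rw [he']⟩⟩
    · exact ⟨1, fun h => absurd h ha⟩
  choose e he using hex
  refine ⟨e, hev.mono fun a ha => he a ha, ?_⟩
  intro y
  let f : ℝ × ℝ → ℝ × ℝ := fun z => (z.1, z.2 + z.1 * ψ z.2)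
  have hf : ContDiffAt ℝ ∞ f (0, y) := by
    apply ContDiffAt.prodMk contDiffAt_fst
    exact contDiffAt_snd.add (contDiffAt_fst.mul (hψ.contDiffAt.comp _ contDiffAt_snd))
  let A : (ℝ × ℝ) ≃L[ℝ] (ℝ × ℝ) := ContinuousLinearEquiv.equivOfInverse
    ((ContinuousLinearMap.fst ℝ ℝ ℝ).prod
      (ContinuousLinearMap.snd ℝ ℝ ℝ + ψ y • ContinuousLinearMap.fst ℝ ℝ ℝ))
    ((ContinuousLinearMap.fst ℝ ℝ ℝ).prod
      (ContinuousLinearMap.snd ℝ ℝ ℝ - ψ y • ContinuousLinearMap.fst ℝ ℝ ℝ))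
    (fun z => by ext <;> simp) (fun z => by ext <;> simp)
  have hf' : HasFDerivAt f (A : (ℝ × ℝ) →L[ℝ] (ℝ × ℝ)) (0, y) := by
    have h1 : HasFDerivAt (fun z : ℝ × ℝ => z.1) (ContinuousLinearMap.fst ℝ ℝ ℝ) (0, y) :=
      hasFDerivAt_fst
    have h2 : HasFDerivAt (fun z : ℝ × ℝ => z.2) (ContinuousLinearMap.snd ℝ ℝ ℝ) (0, y) :=
      hasFDerivAt_snd
    have h3 : HasFDerivAt (fun z : ℝ × ℝ => ψ z.2) (deriv ψ y • ContinuousLinearMap.snd ℝ ℝ ℝ)
        (0, y) := by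
      have h4 : HasDerivAt ψ (deriv ψ y) ((fun z : ℝ × ℝ => z.2) (0, y)) :=
        (hψ.differentiable (by simp)).differentiableAt.hasDerivAt
      exact h4.comp_hasFDerivAt (0, y) h2
    have h5 := h1.prodMk (h2.add (h1.mul h3))
    refine h5.congr_fderiv ?_
    ext <;> simp [A]
  have hn : (∞ : WithTop ℕ∞) ≠ 0 := by simp
  have hloc := hf.to_localInverse hf' hn
  have hfa : f (0, y) = (0, y) := by simp [f]
  rw [hfa] at hloc
  let g : ℝ × ℝ → ℝ × ℝ := fun z => (z.1, (e z.1)⁻¹ z.2)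
  have hg : ∀ᶠ z in 𝓝 ((0 : ℝ), y), g (f z) = z := by
    have h1 : Tendsto (fun z : ℝ × ℝ => z.1) (𝓝 ((0 : ℝ), y)) (𝓝 0) := continuous_fst.tendsto _
    filter_upwards [h1.eventually hev] with z hz
    simp only [g, f]
    rw [← (he z.1 hz).2 z.2, p_inv_apply]
  have huniq := (hf.hasStrictFDerivAt' hf' hn).localInverse_unique hg
  rw [hfa] at huniq
  have hgc : ContDiffAt ℝ ∞ g (0, y) := hloc.congr_of_eventuallyEq huniq
  exact contDiffAt_snd.comp (0, y) hgc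

end Pool.Agent.Helper68
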